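import Pool.Agent.H19.Hyp.Defs
import Pool.Agent.H4.Singer.Basic

/-!
# Project HB: change of the colours
-/

set_option autoImplicit false
set_option linter.unusedSectionVars false

open Finset

namespace Pool.Agent.H19.Hyp

open Pool.Agent.H4.Singer

section

variable {V C C' : Type} [DecidableEq V] [Fintype V]
    [DecidableEq C] [DecidableEq C'] (G : ColGraph V C) (G' : ColGraph V C') (U : Finset V)

open Classical in
/-- the coordinates of the colours of `U` come from `a`, the others from `a'` -/
private noncomputable def rcMix (a' : C' → Bool) (a : C → Bool) (c : C') : Bool :=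
  if h : ∃ u ∈ U, G'.col u = c then a (G.col h.choose) else a' c

open Classical in
private noncomputable def rcPull (a' : C' → Bool) (c : C) : Bool :=
  if h : ∃ u ∈ U, G.col u = c then a' (G'.col h.choose) else false

open Classical in
/-- the coordinates of the colours of `U` are set to `false` -/
private noncomputable def rcZero (a' : C' → Bool) (c : C') : Bool :=
  if ∃ u ∈ U, G'.col u = c then false else a' c

variable {G G' U}

private theorem rcMix_col (hcol : ∀ u ∈ U, ∀ v ∈ U, G.col u = G.col v ↔ G'.col u = G'.col v)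
    (a' : C' → Bool) (a : C → Bool) {v : V} (hv : v ∈ U) :
    rcMix G G' U a' a (G'.col v) = a (G.col v) := by
  have h : ∃ u ∈ U, G'.col u = G'.col v := ⟨v, hv, rfl⟩
  unfold rcMix
  rw [dif_pos h, (hcol _ h.choose_spec.1 v hv).2 h.choose_spec.2]

private theorem rcPull_col (hcol : ∀ u ∈ U, ∀ v ∈ U, G.col u = G.col v ↔ G'.col u = G'.col v)
    (a' : C' → Bool) {v : V} (hv : v ∈ U) :
    rcPull G G' U a' (G.col v) = a' (G'.col v) := by
  have h : ∃ u ∈ U, G.col u = G.col v := ⟨v, hv, rfl⟩
  unfold rcPull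
  rw [dif_pos h, (hcol _ h.choose_spec.1 v hv).1 h.choose_spec.2]

private theorem rcMix_update (hcol : ∀ u ∈ U, ∀ v ∈ U, G.col u = G.col v ↔ G'.col u = G'.col v)
    (a' : C' → Bool) (a : C → Bool) {v : V} (hv : v ∈ U) (b : Bool) :
    rcMix G G' U a' (Function.update a (G.col v) b) =
      Function.update (rcMix G G' U a' a) (G'.col v) b := by
  funext c
  by_cases hc : ∃ u ∈ U, G'.col u = c
  · obtain ⟨u, hu, rfl⟩ := hc
    rw [rcMix_col hcol _ _ hu]
    by_cases h : G'.col u = G'.col v
    · rw [h, Function.update_self, (hcol u hu v hv).2 h, Function.update_self]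
    · rw [Function.update_of_ne h, rcMix_col hcol _ _ hu,
        Function.update_of_ne fun h1 => h ((hcol u hu v hv).1 h1)]
  · have h1 : c ≠ G'.col v := fun h => hc ⟨v, hv, h.symm⟩
    rw [Function.update_of_ne h1]
    unfold rcMix
    rw [dif_neg hc, dif_neg hc]

private theorem rcPull_update (hcol : ∀ u ∈ U, ∀ v ∈ U, G.col u = G.col v ↔ G'.col u = G'.col v)
    (a' : C' → Bool) {v : V} (hv : v ∈ U) (b : Bool) :
    rcPull G G' U (Function.update a' (G'.col v) b) =
      Function.update (rcPull G G' U a') (G.col v) b := by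
  funext c
  by_cases hc : ∃ u ∈ U, G.col u = c
  · obtain ⟨u, hu, rfl⟩ := hc
    rw [rcPull_col hcol _ hu]
    by_cases h : G.col u = G.col v
    · rw [h, Function.update_self, (hcol u hu v hv).1 h, Function.update_self]
    · rw [Function.update_of_ne h, rcPull_col hcol _ hu,
        Function.update_of_ne fun h1 => h ((hcol u hu v hv).2 h1)]
  · have h1 : c ≠ G.col v := fun h => hc ⟨v, hv, h.symm⟩
    rw [Function.update_of_ne h1]
    unfold rcPull
    rw [dif_neg hc, dif_neg hc]

private theorem rcZero_update (a' : C' → Bool) {v : V} (hv : v ∈ U) (b : Bool) :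
    rcZero G' U (Function.update a' (G'.col v) b) = rcZero G' U a' := by
  funext c
  unfold rcZero
  by_cases hc : ∃ u ∈ U, G'.col u = c
  · rw [if_pos hc, if_pos hc]
  · rw [if_neg hc, if_neg hc, Function.update_of_ne fun h => hc ⟨v, hv, h.symm⟩]

private theorem rcMix_pull (hcol : ∀ u ∈ U, ∀ v ∈ U, G.col u = G.col v ↔ G'.col u = G'.col v)
    (a' : C' → Bool) : rcMix G G' U (rcZero G' U a') (rcPull G G' U a') = a' := by
  funext c
  by_cases hc : ∃ u ∈ U, G'.col u = c
  · obtain ⟨u, hu, rfl⟩ := hc
    rw [rcMix_col hcol _ _ hu, rcPull_col hcol _ hu]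
  · unfold rcMix rcZero
    rw [dif_neg hc, if_neg hc]

/-- Only the classes of the labels in `U` with the same colour matter. -/
theorem van_recol {K : Type} [Field K] (hadj : ∀ u ∈ U, ∀ v ∈ U, G.adj u v ↔ G'.adj u v)
    (hcol : ∀ u ∈ U, ∀ v ∈ U, G.col u = G.col v ↔ G'.col u = G'.col v) (t : V → K) (j : ℕ)
    (h : Van G t U j) : Van G' t U j := by
  classical
  intro z hz hbz
  have hcl : ∀ σ ⊆ U, G.Cl σ ↔ G'.Cl σ := fun σ hσ =>
    ⟨fun h u hu v hv huv => (hadj u (hσ hu) v (hσ hv)).1 (h u hu v hv huv),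
      fun h u hu v hv huv => (hadj u (hσ hu) v (hσ hv)).2 (h u hu v hv huv)⟩
  have key : ∀ a' : C' → Bool, ∃ y : Finset V → (C → Bool) → K, IsChain G U (j + 1) y ∧
      bd G t y = fun σ a => z σ (rcMix G G' U a' a) := by
    intro a'
    refine h _ ⟨fun σ a hne => ?_, fun σ a v b hv => ?_⟩ ?_
    · obtain ⟨h1, h2, h3⟩ := hz.supp _ _ hne
      exact ⟨h1, (hcl σ h1).2 h2, h3⟩
    · by_cases hσ : σ ⊆ U
      · rw [rcMix_update hcol _ _ (hσ hv)]
        exact hz.indep _ _ v b hv
      · have h1 : ∀ a, z σ a = 0 := fun a => by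
          by_contra h2
          exact hσ (hz.supp _ _ h2).1
        rw [h1, h1]
    · funext τ a
      have h1 := congrFun (congrFun hbz τ) (rcMix G G' U a' a)
      refine Eq.trans ?_ h1
      unfold bd
      refine Finset.sum_congr rfl fun v _ => ?_
      by_cases hv : v ∈ U
      · rw [rcMix_col hcol _ _ hv]
      · have h2 : ∀ a, z (insert v τ) a = 0 := fun a => by
          by_contra h3
          exact hv ((hz.supp _ _ h3).1 (Finset.mem_insert_self v τ))
        show _ • z (insert v τ) _ = _
        rw [h2, smul_zero, smul_zero]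
  choose Y hY hbY using key
  refine ⟨fun σ a' => Y (rcZero G' U a') σ (rcPull G G' U a'), ⟨fun σ a' hne => ?_,
    fun σ a' v b hv => ?_⟩, ?_⟩
  · obtain ⟨h1, h2, h3⟩ := (hY _).supp _ _ hne
    exact ⟨h1, (hcl σ h1).1 h2, h3⟩
  · by_cases hσ : σ ⊆ U
    · show Y (rcZero G' U (Function.update a' (G'.col v) b)) σ
        (rcPull G G' U (Function.update a' (G'.col v) b)) = _
      rw [rcZero_update _ (hσ hv), rcPull_update hcol _ (hσ hv)]
      exact (hY _).indep _ _ v b hv
    · have h1 : ∀ a' a, Y a' σ a = 0 := fun a' a => by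
        by_contra h2
        exact hσ ((hY a').supp _ _ h2).1
      show Y _ σ _ = Y _ σ _
      rw [h1, h1]
  · funext τ a'
    have h1 := congrFun (congrFun (hbY (rcZero G' U a')) τ) (rcPull G G' U a')
    rw [rcMix_pull hcol] at h1
    rw [← h1]
    unfold bd
    refine Finset.sum_congr rfl fun v hvτ => ?_
    by_cases hv : v ∈ U
    · rw [rcPull_col hcol _ hv]
    · have h2 : ∀ a' a, Y a' (insert v τ) a = 0 := fun a' a => by
        by_contra h3
        exact hv (((hY a').supp _ _ h3).1 (Finset.mem_insert_self v τ))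
      show _ • Y _ (insert v τ) _ = _
      rw [h2, smul_zero, smul_zero]

end

end Pool.Agent.H19.Hyp
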