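import Pool.Agent.H19.Hyp.PosVan
import Pool.Agent.H19.Hyp.Recol
import Pool.Agent.H4.HY.LinkS

/-!
# Project HB: `Van` for the links of chains of ranked labels
-/

set_option autoImplicit false

open Finset

namespace Pool.Agent.H19.Hyp

open Pool.Agent.H4.Singer Pool.Agent.H4.Singer2 Pool.Agent.H4.HY

variable {L : Type} [PartialOrder L] [Fintype L] [DecidableEq L]

/-- `posVan` for an arbitrary coloured graph `Γ` on the labels, if the adjacent labels of `U` are the
comparable ones and the labels of `U` with the same colour are those of the same rank. -/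
theorem posVanU {C : Type} [DecidableEq C] (rk : L → ℕ) (Γ : ColGraph L C) (n : ℕ) (S U : Finset L)
    (hS : IsRanked rk n S) (hU : U ⊆ S)
    (hadj : ∀ u ∈ U, ∀ v ∈ U, Γ.adj u v ↔ u < v ∨ v < u)
    (hcol : ∀ u ∈ U, ∀ v ∈ U, rk u = rk v ↔ Γ.col u = Γ.col v) (i : ℕ) (hi : n < 2 * i) :
    ∃ (K : Type) (_ : Field K) (_ : CharP K 2) (t : L → K), Van Γ t U i := by
  classical
  obtain ⟨hn, hB, hT⟩ := hS
  have hcl : ∀ (N : ℕ) (K : Type) [Field K] (G : ColGraph {v // v ∈ U} (Fin (N + 1)))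
      (t : L → K), (∀ u v, G.adj u v ↔ u.1 < v.1 ∨ v.1 < u.1) →
      (∀ u, (G.col u : ℕ) = rk u.1) → Van G (fun v => t v.1) univ i → Van Γ t U i := by
    intro N K _ G t h1 h2 h3
    let G' : ColGraph {v // v ∈ U} C :=
      { adj := fun u v => Γ.adj u.1 v.1
        symm := fun u v h => Γ.symm _ _ h
        col := fun v => Γ.col v.1
        ne := fun u v h => Γ.ne _ _ h }
    have h4 : Van G' (fun v => t v.1) univ i := by
      refine van_recol (G := G) (G' := G') (fun u _ v _ => ?_) (fun u _ v _ => ?_) _ i h3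
      · exact (h1 u v).trans (hadj u.1 u.2 v.1 v.2).symm
      · rw [Fin.ext_iff, h2, h2]
        exact hcol u.1 u.2 v.1 v.2
    refine van_sub Γ G' (Function.Embedding.subtype (· ∈ U)) (fun u v => Iff.rfl) (fun v => rfl) t U
      (fun v => ⟨fun h => ⟨⟨v, h⟩, rfl⟩, ?_⟩) i h4
    rintro ⟨w, rfl⟩
    exact w.2
  rcases Nat.even_or_odd n with hev | hodd
  · let ι : {v // v ∈ U} → WithBot {w // w ∈ S} := fun v =>
      ((⟨v.1, hU v.2⟩ : {w // w ∈ S}) : WithBot {w // w ∈ S})
    have hι : LowEmb (⊥ : WithBot {w // w ∈ S}) ι := by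
      refine ⟨fun x => bot_le, fun u v => ?_, fun u v huv => ?_, fun v => ?_⟩
      · exact WithBot.coe_lt_coe
      · have h2 : (((⟨u.1, hU u.2⟩ : {w // w ∈ S}) : WithBot {w // w ∈ S})) =
            ((⟨v.1, hU v.2⟩ : {w // w ∈ S}) : WithBot {w // w ∈ S}) := huv
        have h3 := WithBot.coe_injective h2
        exact Subtype.ext (Subtype.mk.inj h3)
      · exact WithBot.bot_lt_coe _
    have hdim : ∀ v, rkB rk S (ι v) ≤ n := fun v => hn v.1 (hU v.2)
    have h0 : rkB rk S ⊥ = 0 := rfl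
    have key := van_univ_even _ _ (posCol_posGraph hB n hι hdim) _
      (goodB_of hB n h0 hι hdim) n hev hdim i hi
    let t : L → RF (WithBot {w // w ∈ S}) := fun v =>
      if h : v ∈ S then xv (((⟨v, h⟩ : {w // w ∈ S}) : WithBot {w // w ∈ S})) else 0
    refine ⟨RF (WithBot {w // w ∈ S}), inferInstance, inferInstance, t, ?_⟩
    refine hcl n _ (posCol (rkB rk S) hB n ι hι.lt_iff hdim) t (fun u v => Iff.rfl)
      (fun u => rfl) ?_
    have ht : (fun v : {v // v ∈ U} => t v.1) = fun v => xv (ι v) := by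
      funext v
      exact dif_pos (hU v.2)
    rw [ht]
    exact key
  · have hT' := hT hodd
    obtain ⟨m, rfl⟩ := hodd
    let ι : {v // v ∈ U} → WithTop (WithBot {w // w ∈ S}) := fun v =>
      (((⟨v.1, hU v.2⟩ : {w // w ∈ S}) : WithBot {w // w ∈ S}) : WithTop (WithBot {w // w ∈ S}))
    have hι : LowEmb (⊥ : WithTop (WithBot {w // w ∈ S})) ι := by
      refine ⟨fun x => bot_le, fun u v => ?_, fun u v huv => ?_, fun v => ?_⟩
      · exact WithTop.coe_lt_coe.trans WithBot.coe_lt_coe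
      · have h2 : ((((⟨u.1, hU u.2⟩ : {w // w ∈ S}) : WithBot {w // w ∈ S})) :
            WithTop (WithBot {w // w ∈ S})) =
            (((⟨v.1, hU v.2⟩ : {w // w ∈ S}) : WithBot {w // w ∈ S}) :
              WithTop (WithBot {w // w ∈ S})) := huv
        have h3 := WithBot.coe_injective (WithTop.coe_injective h2)
        exact Subtype.ext (Subtype.mk.inj h3)
      · exact WithTop.coe_lt_coe.2 (WithBot.bot_lt_coe _)
    have hlt : ∀ v, ι v < ⊤ := fun v => WithTop.coe_lt_top _
    have hdim : ∀ v, rkT rk (2 * m + 1) S (ι v) ≤ 2 * m + 1 := fun v => hn v.1 (hU v.2)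
    have h0 : rkT rk (2 * m + 1) S ⊥ = 0 := rfl
    have h1 : rkT rk (2 * m + 1) S ⊤ = 2 * m + 2 := rfl
    have key := van_univ_odd _ _ (posCol_posGraph hT' (2 * m + 1) hι hdim) _
      (goodB_of hT' (2 * m + 1) h0 hι hdim) m
      (goodU_of hT' m h0 h1 hι hlt hdim) hdim i hi
    let t : L → RF (WithTop (WithBot {w // w ∈ S})) := fun v =>
      if h : v ∈ S then
        xv ((((⟨v, h⟩ : {w // w ∈ S}) : WithBot {w // w ∈ S}) : WithTop (WithBot {w // w ∈ S})))
      else 0
    refine ⟨RF (WithTop (WithBot {w // w ∈ S})), inferInstance, inferInstance, t, ?_⟩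
    refine hcl (2 * m + 1) _ (posCol (rkT rk (2 * m + 1) S) hT' (2 * m + 1) ι hι.lt_iff hdim) t
      (fun u v => Iff.rfl) (fun u => rfl) ?_
    have ht : (fun v : {v // v ∈ U} => t v.1) = fun v => xv (ι v) := by
      funext v
      exact dif_pos (hU v.2)
    rw [ht]
    exact key

/-- the ranks in the link of a chain determine the ranks -/
theorem rkL_eq_iff (rk : L → ℕ) (S τ : Finset L) (hS : ∀ u ∈ S, ∀ v ∈ S, u < v → rk u < rk v)
    (hτS : τ ⊆ S) (hτ : ∀ u ∈ τ, ∀ v ∈ τ, u ≠ v → u < v ∨ v < u) {u v : L}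
    (hu : u ∈ lkS S τ) (hv : v ∈ lkS S τ) : rkL rk τ u = rkL rk τ v ↔ rk u = rk v := by
  classical
  have inj : Set.InjOn rk (τ : Set L) := by
    intro a ha b hb hab
    by_contra hne
    rcases hτ a ha b hb hne with h | h
    · exact absurd hab (hS a (hτS ha) b (hτS hb) h).ne
    · exact absurd hab (hS b (hτS hb) a (hτS ha) h).ne'
  have hlt : ∀ w ∈ lkS S τ, ∀ t ∈ τ, (t < w ↔ rk t < rk w) := by
    intro w hw t ht
    obtain ⟨h1, h2⟩ := mem_lkS.1 hw
    refine ⟨fun h => hS t (hτS ht) w h1 h, fun h => ?_⟩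
    rcases h2 t ht with h3 | h3
    · exact absurd (hS w h1 t (hτS ht) h3) (not_lt.2 h.le)
    · exact h3
  have hset : ∀ w ∈ lkS S τ, (τ.filter fun t => t < w) = τ.filter fun t => rk t < rk w :=
    fun w hw => Finset.filter_congr fun t ht => hlt w hw t ht
  have hle : ∀ w : L, (τ.filter fun t => rk t < rk w).card ≤ rk w := by
    intro w
    rw [← Finset.card_image_of_injOn (f := rk) (inj.mono fun a ha =>
      Finset.mem_coe.2 (Finset.filter_subset _ _ (Finset.mem_coe.1 ha)))]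
    refine (Finset.card_le_card (t := Finset.range (rk w)) fun x hx => ?_).trans
      (Finset.card_range _).le
    obtain ⟨a, ha, rfl⟩ := Finset.mem_image.1 hx
    exact Finset.mem_range.2 (Finset.mem_filter.1 ha).2
  have hmono : ∀ a ∈ lkS S τ, ∀ b ∈ lkS S τ, rk a < rk b → rkL rk τ a < rkL rk τ b := by
    intro a ha b hb hab
    unfold rkL
    rw [hset a ha, hset b hb]
    have h1 : (τ.filter fun t => rk t < rk b) =
        (τ.filter fun t => rk t < rk a) ∪ τ.filter fun t => rk a < rk t ∧ rk t < rk b := by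
      ext t
      simp only [Finset.mem_filter, Finset.mem_union]
      constructor
      · rintro ⟨h1, h2⟩
        by_cases h3 : rk t < rk a
        · exact Or.inl ⟨h1, h3⟩
        · refine Or.inr ⟨h1, lt_of_le_of_ne (not_lt.1 h3) fun h4 => ?_, h2⟩
          obtain ⟨h5, h6⟩ := mem_lkS.1 ha
          rcases h6 t h1 with h7 | h7
          · exact absurd h4 (hS a h5 t (hτS h1) h7).ne
          · exact absurd h4 (hS t (hτS h1) a h5 h7).ne'
      · rintro (⟨h1, h2⟩ | ⟨h1, h2, h3⟩)
        · exact ⟨h1, h2.trans hab⟩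
        · exact ⟨h1, h3⟩
    have h2 : (τ.filter fun t => rk a < rk t ∧ rk t < rk b).card ≤ rk b - rk a - 1 := by
      rw [← Finset.card_image_of_injOn (f := rk) (inj.mono fun a ha =>
        Finset.mem_coe.2 (Finset.filter_subset _ _ (Finset.mem_coe.1 ha)))]
      refine (Finset.card_le_card (t := Finset.Ioo (rk a) (rk b)) fun x hx => ?_).trans
        (Nat.card_Ioo _ _).le
      obtain ⟨c, hc, rfl⟩ := Finset.mem_image.1 hx
      exact Finset.mem_Ioo.2 (Finset.mem_filter.1 hc).2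
    have h3 := Finset.card_union_le (τ.filter fun t => rk t < rk a)
      (τ.filter fun t => rk a < rk t ∧ rk t < rk b)
    rw [← h1] at h3
    have h4 := hle a
    have h5 := hle b
    omega
  constructor
  · intro h
    by_contra hne
    rcases lt_or_gt_of_ne hne with h1 | h1
    · exact absurd h (hmono u hu v hv h1).ne
    · exact absurd h (hmono v hv u hu h1).ne'
  · intro h
    unfold rkL
    rw [hset u hu, hset v hv, h]

/-- **`Van` for the link of a chain** of even length of ranked labels. -/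
theorem posVanLink {C : Type} [DecidableEq C] (rk : L → ℕ) (hrk : StrictMono rk)
    (Γ : ColGraph L C) (n : ℕ) (S : Finset L) (hS : IsRanked rk n S)
    (hadj : ∀ u ∈ S, ∀ v ∈ S, Γ.adj u v ↔ u < v ∨ v < u)
    (hcol : ∀ u ∈ S, ∀ v ∈ S, rk u = rk v ↔ Γ.col u = Γ.col v)
    (τ : Finset L) (hτS : τ ⊆ S) (hτ : ∀ u ∈ τ, ∀ v ∈ τ, u ≠ v → u < v ∨ v < u)
    (hev : Even τ.card) (U : Finset L) (hU : U ⊆ lkS S τ) (j : ℕ)
    (hj : n < 2 * j + τ.card) :
    ∃ (K : Type) (_ : Field K) (_ : CharP K 2) (t : L → K), Van Γ t U j := by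
  have h1 : ∀ u ∈ U, u ∈ S := fun u hu => (mem_lkS.1 (hU hu)).1
  refine posVanU (rkL rk τ) Γ (n - τ.card) (lkS S τ) U (isRanked_link hS τ hτS hτ hev) hU
    (fun u hu v hv => hadj u (h1 u hu) v (h1 v hv)) (fun u hu v hv => ?_) j (by
      have h2 := (ranked_link hS.1 hS.2.1 τ hτS hτ).1
      omega)
  rw [rkL_eq_iff rk S τ (fun a _ b _ h => hrk h) hτS hτ (hU hu) (hU hv)]
  exact hcol u (h1 u hu) v (h1 v hv)

end Pool.Agent.H19.Hyp
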