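import Pool.Agent.H19.Hyp.VanSub
import Pool.Agent.H4.Singer2.PFinal

/-!
# Project HB: `Van` for sets of ranked labels

`colR rk` colours the labels by the rank, in `Fin (cN rk + 1)`, `cN rk = ∑ v, rk v`.
-/

set_option autoImplicit false

open Finset

namespace Pool.Agent.H19.Hyp

open Pool.Agent.H4.Singer Pool.Agent.H4.Singer2

section

variable {L : Type} [Fintype L]

/-- a bound for the ranks -/
def cN (rk : L → ℕ) : ℕ := ∑ v, rk v

theorem le_cN (rk : L → ℕ) (v : L) : rk v ≤ cN rk :=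
  Finset.single_le_sum (f := rk) (fun _ _ => Nat.zero_le _) (Finset.mem_univ v)

/-- the colouring by the rank -/
def colR (rk : L → ℕ) (v : L) : Fin (cN rk + 1) := ⟨rk v, Nat.lt_succ_of_le (le_cN rk v)⟩

end

variable {L : Type} [PartialOrder L] [Fintype L]

theorem colR_ne (rk : L → ℕ) (hrk : StrictMono rk) (G : SimpleGraph L)
    (hG : ∀ u v, G.Adj u v ↔ u < v ∨ v < u) (u v : L) (huv : G.Adj u v) :
    colR rk u ≠ colR rk v := by
  intro h
  have h1 : rk u = rk v := congrArg Fin.val h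
  rcases (hG u v).1 huv with h2 | h2
  · exact absurd h1 (hrk h2).ne
  · exact absurd h1 (hrk h2).ne'

theorem posVan [DecidableEq L] (rk : L → ℕ) (hrk : StrictMono rk) (G : SimpleGraph L)
    (hG : ∀ u v, G.Adj u v ↔ u < v ∨ v < u) (n : ℕ) (S U : Finset L) (hS : IsRanked rk n S)
    (hU : U ⊆ S) (i : ℕ) (hi : n < 2 * i) :
    ∃ (K : Type) (_ : Field K) (_ : CharP K 2) (t : L → K),
      Van (colG G (colR rk) (colR_ne rk hrk G hG)) t U i := by
  classical
  obtain ⟨hn, hB, hT⟩ := hS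
  have hrB : ∀ v : {w // w ∈ S}, rkB rk S (v : WithBot {w // w ∈ S}) = rk v.1 := fun v => rfl
  rcases Nat.even_or_odd n with hev | hodd
  · let ι : {v // v ∈ U} → WithBot {w // w ∈ S} := fun v =>
      ((⟨v.1, hU v.2⟩ : {w // w ∈ S}) : WithBot {w // w ∈ S})
    have hι : LowEmb (⊥ : WithBot {w // w ∈ S}) ι := by
      refine ⟨fun x => bot_le, fun u v => ?_, fun u v huv => ?_, fun v => ?_⟩
      · exact WithBot.coe_lt_coe
      · have h2 : (((⟨u.1, hU u.2⟩ : {w // w ∈ S}) : WithBot {w // w ∈ S})) =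
            ((⟨v.1, hU v.2⟩ : {w // w ∈ S}) : WithBot {w // w ∈ S}) := huv
        have h3 := WithBot.coe_injective h2
        exact Subtype.ext (Subtype.mk.inj h3)
      · exact WithBot.bot_lt_coe _
    have hdim : ∀ v, rkB rk S (ι v) ≤ n := fun v => hn v.1 (hU v.2)
    have hdimN : ∀ v, rkB rk S (ι v) ≤ cN rk := fun v => le_cN rk v.1
    have h0 : rkB rk S ⊥ = 0 := rfl
    have key := van_univ_even _ _ (posCol_posGraph hB (cN rk) hι hdimN) _
      (goodB_of hB (cN rk) h0 hι hdimN) n hev hdim i hi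
    let t : L → RF (WithBot {w // w ∈ S}) := fun v =>
      if h : v ∈ S then xv (((⟨v, h⟩ : {w // w ∈ S}) : WithBot {w // w ∈ S})) else 0
    refine ⟨RF (WithBot {w // w ∈ S}), inferInstance, inferInstance, t, ?_⟩
    refine van_sub _ (posCol (rkB rk S) hB (cN rk) ι hι.lt_iff hdimN)
      (Function.Embedding.subtype (· ∈ U)) (fun u v => ?_) (fun v => ?_) t U
      (fun v => ⟨fun h => ⟨⟨v, h⟩, rfl⟩, ?_⟩) i ?_
    · exact (hG u.1 v.1).symm
    · rfl
    · rintro ⟨w, rfl⟩
      exact w.2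
    · have ht : (fun v : {v // v ∈ U} => t ((Function.Embedding.subtype (· ∈ U)) v)) =
          fun v => xv (ι v) := by
        funext v
        exact dif_pos (hU v.2)
      rw [ht]
      exact key
  · have hT' := hT hodd
    obtain ⟨m, rfl⟩ := hodd
    let ι : {v // v ∈ U} → WithTop (WithBot {w // w ∈ S}) := fun v =>
      (((⟨v.1, hU v.2⟩ : {w // w ∈ S}) : WithBot {w // w ∈ S}) : WithTop (WithBot {w // w ∈ S}))
    have hι : LowEmb (⊥ : WithTop (WithBot {w // w ∈ S})) ι := by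
      refine ⟨fun x => bot_le, fun u v => ?_, fun u v huv => ?_, fun v => ?_⟩
      · exact WithTop.coe_lt_coe.trans WithBot.coe_lt_coe
      · have h2 : ((((⟨u.1, hU u.2⟩ : {w // w ∈ S}) : WithBot {w // w ∈ S})) :
            WithTop (WithBot {w // w ∈ S})) =
            (((⟨v.1, hU v.2⟩ : {w // w ∈ S}) : WithBot {w // w ∈ S}) :
              WithTop (WithBot {w // w ∈ S})) := huv
        have h3 := WithBot.coe_injective (WithTop.coe_injective h2)
        exact Subtype.ext (Subtype.mk.inj h3)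
      · exact WithTop.coe_lt_coe.2 (WithBot.bot_lt_coe _)
    have hlt : ∀ v, ι v < ⊤ := fun v => WithTop.coe_lt_top _
    have hdim : ∀ v, rkT rk (2 * m + 1) S (ι v) ≤ 2 * m + 1 := fun v => hn v.1 (hU v.2)
    have hdimN : ∀ v, rkT rk (2 * m + 1) S (ι v) ≤ cN rk := fun v => le_cN rk v.1
    have h0 : rkT rk (2 * m + 1) S ⊥ = 0 := rfl
    have h1 : rkT rk (2 * m + 1) S ⊤ = 2 * m + 2 := rfl
    have key := van_univ_odd _ _ (posCol_posGraph hT' (cN rk) hι hdimN) _
      (goodB_of hT' (cN rk) h0 hι hdimN) m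
      (goodU_of hT' m h0 h1 hι hlt hdim) hdim i hi
    let t : L → RF (WithTop (WithBot {w // w ∈ S})) := fun v =>
      if h : v ∈ S then
        xv ((((⟨v, h⟩ : {w // w ∈ S}) : WithBot {w // w ∈ S}) : WithTop (WithBot {w // w ∈ S})))
      else 0
    refine ⟨RF (WithTop (WithBot {w // w ∈ S})), inferInstance, inferInstance, t, ?_⟩
    refine van_sub _ (posCol (rkT rk (2 * m + 1) S) hT' (cN rk) ι hι.lt_iff hdimN)
      (Function.Embedding.subtype (· ∈ U)) (fun u v => ?_) (fun v => ?_) t U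
      (fun v => ⟨fun h => ⟨⟨v, h⟩, rfl⟩, ?_⟩) i ?_
    · exact (hG u.1 v.1).symm
    · rfl
    · rintro ⟨w, rfl⟩
      exact w.2
    · have ht : (fun v : {v // v ∈ U} => t ((Function.Embedding.subtype (· ∈ U)) v)) =
          fun v => xv (ι v) := by
        funext v
        exact dif_pos (hU v.2)
      rw [ht]
      exact key

end Pool.Agent.H19.Hyp
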