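import Pool.Agent.H19.Hyp.Defs

/-!
# Project HB: the faces of a simplicial complex are spherical below
-/

set_option autoImplicit false
set_option linter.unusedSectionVars false

open Finset

namespace Pool.Agent.H19.Hyp

open Pool.Agent.H4.Singer2

variable {V : Type} [DecidableEq V] [Fintype V] {S : Finset (Finset V)}

/-- the underlying set -/
def stB (x : WithBot {w // w ∈ S}) : Finset V := x.recBotCoe ∅ fun w => w.1

/-- the element with a given underlying set -/
def elB (S : Finset (Finset V)) (T : Finset V) : WithBot {w // w ∈ S} :=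
  if h : T ∈ S then ((⟨T, h⟩ : {w // w ∈ S}) : WithBot {w // w ∈ S}) else ⊥

theorem stB_coe (w : {w // w ∈ S}) : stB (w : WithBot {w // w ∈ S}) = w.1 := rfl

theorem stB_bot : stB (⊥ : WithBot {w // w ∈ S}) = ∅ := rfl

theorem stB_el {T : Finset V} (h : T ∈ S) : stB (elB S T) = T := by
  unfold elB
  rw [dif_pos h]
  rfl

section

variable (hne : ∀ A ∈ S, A ≠ ∅)

include hne

theorem stB_le (x y : WithBot {w // w ∈ S}) : x ≤ y ↔ stB x ⊆ stB y := by
  induction x using WithBot.recBotCoe with
  | bot => simp [stB_bot]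
  | coe u =>
    induction y using WithBot.recBotCoe with
    | bot =>
      rw [stB_coe, stB_bot, Finset.subset_empty]
      refine ⟨fun h => absurd h (WithBot.not_coe_le_bot u), fun h => absurd h (hne _ u.2)⟩
    | coe w =>
      rw [stB_coe, stB_coe, WithBot.coe_le_coe]
      exact Iff.rfl

theorem stB_inj (x y : WithBot {w // w ∈ S}) (h : stB x = stB y) : x = y :=
  le_antisymm ((stB_le hne x y).2 h.subset) ((stB_le hne y x).2 h.symm.subset)

theorem stB_lt (x y : WithBot {w // w ∈ S}) : x < y ↔ stB x ⊂ stB y := by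
  rw [lt_iff_le_not_ge, stB_le hne, stB_le hne]
  exact Iff.rfl

theorem el_stB (x : WithBot {w // w ∈ S}) : elB S (stB x) = x := by
  induction x using WithBot.recBotCoe with
  | bot =>
    rw [stB_bot]
    unfold elB
    rw [dif_neg]
    exact fun h => hne _ h rfl
  | coe u =>
    rw [stB_coe]
    unfold elB
    rw [dif_pos u.2]

variable (hdown : ∀ A ∈ S, ∀ B, B ⊆ A → B ≠ ∅ → B ∈ S)

include hdown

theorem stB_mem (b : WithBot {w // w ∈ S}) {T : Finset V} (hT : T ⊆ stB b) (h0 : T.Nonempty) :
    T ∈ S := by
  induction b using WithBot.recBotCoe with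
  | bot =>
    rw [stB_bot, Finset.subset_empty] at hT
    exact absurd hT h0.ne_empty
  | coe u => exact hdown _ u.2 T hT h0.ne_empty

theorem stB_el' (b : WithBot {w // w ∈ S}) {T : Finset V} (hT : T ⊆ stB b) :
    stB (elB S T) = T := by
  rcases T.eq_empty_or_nonempty with h | h
  · subst h
    unfold elB
    rw [dif_neg (fun h => hne _ h rfl)]
    rfl
  · exact stB_el (stB_mem hne hdown b hT h)

theorem stB_cov (x y : WithBot {w // w ∈ S}) (h : x ⋖ y) : ∃ v ∉ stB x, stB y = insert v (stB x) := by
  have h1 := (stB_lt hne x y).1 h.lt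
  obtain ⟨v, hv, hvx⟩ := Finset.exists_of_ssubset h1
  refine ⟨v, hvx, ?_⟩
  have h2 : insert v (stB x) ⊆ stB y := Finset.insert_subset hv h1.subset
  have h3 := stB_el' hne hdown y h2
  have h4 : x < elB S (insert v (stB x)) := by
    rw [stB_lt hne, h3]
    exact Finset.ssubset_insert hvx
  have h5 : elB S (insert v (stB x)) ≤ y := by
    rw [stB_le hne, h3]
    exact h2
  have h6 : elB S (insert v (stB x)) = y := by
    rcases h5.lt_or_eq with h7 | h7
    · exact absurd h7 (h.2 h4)
    · exact h7
  rw [← h6, h3]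

theorem cov_iff (x y : WithBot {w // w ∈ S}) : x ⋖ y ↔ ∃ v ∉ stB x, stB y = insert v (stB x) := by
  refine ⟨stB_cov hne hdown x y, ?_⟩
  rintro ⟨v, hv, hy⟩
  refine ⟨?_, fun c h1 h2 => ?_⟩
  · rw [stB_lt hne, hy]
    exact Finset.ssubset_insert hv
  · rw [stB_lt hne] at h1 h2
    have h3 := Finset.card_lt_card h1
    have h4 := Finset.card_lt_card h2
    rw [hy, Finset.card_insert_of_notMem hv] at h4
    omega

theorem bdI_eq (b x : WithBot {w // w ∈ S}) (hx : x ≤ b) (z : WithBot {w // w ∈ S} → ZMod 2) :
    bdI b z x = ∑ u ∈ stB b \ stB x, z (elB S (insert u (stB x))) := by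
  classical
  unfold bdI
  symm
  have hxb := (stB_le hne x b).1 hx
  refine Finset.sum_bij (fun u _ => elB S (insert u (stB x))) ?_ ?_ ?_ ?_
  · intro u hu
    rw [Finset.mem_sdiff] at hu
    have h1 : insert u (stB x) ⊆ stB b := Finset.insert_subset hu.1 hxb
    have h2 := stB_el' hne hdown b h1
    simp only [Finset.mem_filter, Finset.mem_univ, true_and]
    refine ⟨?_, ?_⟩
    · rw [cov_iff hne hdown, h2]
      exact ⟨u, hu.2, rfl⟩
    · rw [stB_le hne, h2]
      exact h1
  · intro u hu w hw h
    rw [Finset.mem_sdiff] at hu hw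
    have h1 : insert u (stB x) ⊆ stB b := Finset.insert_subset hu.1 hxb
    have h2 : insert w (stB x) ⊆ stB b := Finset.insert_subset hw.1 hxb
    have h3 := congrArg stB h
    rw [stB_el' hne hdown b h1, stB_el' hne hdown b h2] at h3
    have h4 : u ∈ insert w (stB x) := h3 ▸ Finset.mem_insert_self u _
    rcases Finset.mem_insert.1 h4 with h5 | h5
    · exact h5
    · exact absurd h5 hu.2
  · intro y hy
    simp only [Finset.mem_filter, Finset.mem_univ, true_and] at hy
    obtain ⟨v, hv, hyv⟩ := stB_cov hne hdown x y hy.1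
    have h1 := (stB_le hne y b).1 hy.2
    refine ⟨v, Finset.mem_sdiff.2 ⟨h1 (hyv ▸ Finset.mem_insert_self v _), hv⟩, ?_⟩
    rw [← hyv, el_stB hne]
  · intro u _
    rfl

theorem exactInterval_stB (a b : WithBot {w // w ∈ S}) (hab : a < b) : ExactInterval a b := by
  classical
  intro z
  obtain ⟨v, hvb, hva⟩ := Finset.exists_of_ssubset ((stB_lt hne a b).1 hab)
  constructor
  · intro hz
    refine ⟨fun w => if v ∈ stB w then z (elB S ((stB w).erase v)) else 0, ?_⟩
    intro x hax hxb
    have hxb' := (stB_le hne x b).1 hxb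
    have hax' := (stB_le hne a x).1 hax
    rw [bdI_eq hne hdown b x hxb]
    have hins : ∀ u ∈ stB b \ stB x, stB (elB S (insert u (stB x))) = insert u (stB x) := by
      intro u hu
      rw [Finset.mem_sdiff] at hu
      exact stB_el' hne hdown b (Finset.insert_subset hu.1 hxb')
    by_cases hvx : v ∈ stB x
    · -- compare with the boundary at `x \ v`
      have hsub : (stB x).erase v ⊆ stB b := (Finset.erase_subset _ _).trans hxb'
      have h1 := stB_el' hne hdown b hsub
      have h2 := hz (elB S ((stB x).erase v)) (by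
        rw [stB_le hne, h1]
        intro u hu
        rw [Finset.mem_erase]
        exact ⟨fun h => hva (h ▸ hu), hax' hu⟩) (by
        rw [stB_le hne, h1]
        exact hsub)
      rw [bdI_eq hne hdown b _ (by rw [stB_le hne, h1]; exact hsub), h1] at h2
      have h3 : stB b \ (stB x).erase v = insert v (stB b \ stB x) := by
        ext u
        simp only [Finset.mem_sdiff, Finset.mem_erase, Finset.mem_insert]
        constructor
        · rintro ⟨h4, h5⟩
          by_cases h6 : u = v
          · exact Or.inl h6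
          · exact Or.inr ⟨h4, fun h7 => h5 ⟨h6, h7⟩⟩
        · rintro (h4 | ⟨h4, h5⟩)
          · subst h4
            exact ⟨hvb, fun h5 => h5.1 rfl⟩
          · exact ⟨h4, fun h6 => h5 h6.2⟩
      have h4 : v ∉ stB b \ stB x := fun h => (Finset.mem_sdiff.1 h).2 hvx
      rw [h3, Finset.sum_insert h4, Finset.insert_erase hvx, el_stB hne] at h2
      have h5 : ∑ u ∈ stB b \ stB x, (if v ∈ stB (elB S (insert u (stB x))) then
          z (elB S ((stB (elB S (insert u (stB x)))).erase v)) else 0) =
          ∑ u ∈ stB b \ stB x, z (elB S (insert u ((stB x).erase v))) := by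
        refine Finset.sum_congr rfl fun u hu => ?_
        rw [hins u hu, if_pos (Finset.mem_insert_of_mem hvx)]
        rw [Finset.erase_insert_of_ne]
        rintro rfl
        exact (Finset.mem_sdiff.1 hu).2 hvx
      rw [h5]
      have h6 : ∀ p q : ZMod 2, p + q = 0 → q = p := by decide
      exact h6 _ _ h2
    · rw [Finset.sum_eq_single v]
      · have h1 : v ∈ stB b \ stB x := Finset.mem_sdiff.2 ⟨hvb, hvx⟩
        rw [hins v h1, if_pos (Finset.mem_insert_self _ _), Finset.erase_insert hvx, el_stB hne]
      · intro u hu huv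
        rw [hins u hu, if_neg]
        rw [Finset.mem_insert]
        rintro (h | h)
        · exact huv h.symm
        · exact hvx h
      · intro h
        exact absurd (Finset.mem_sdiff.2 ⟨hvb, hvx⟩) h
  · rintro ⟨y, hy⟩ x hax hxb
    have hxb' := (stB_le hne x b).1 hxb
    have hax' := (stB_le hne a x).1 hax
    rw [bdI_eq hne hdown b x hxb]
    have h1 : ∀ u ∈ stB b \ stB x, z (elB S (insert u (stB x))) =
        ∑ w ∈ stB b \ insert u (stB x), y (elB S (insert w (insert u (stB x)))) := by
      intro u hu
      rw [Finset.mem_sdiff] at hu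
      have h2 : insert u (stB x) ⊆ stB b := Finset.insert_subset hu.1 hxb'
      have h3 := stB_el' hne hdown b h2
      rw [← hy (elB S (insert u (stB x))) (by
        rw [stB_le hne, h3]
        exact hax'.trans (Finset.subset_insert _ _)) (by
        rw [stB_le hne, h3]
        exact h2), bdI_eq hne hdown b _ (by rw [stB_le hne, h3]; exact h2), h3]
    rw [Finset.sum_congr rfl h1, Finset.sum_sigma']
    refine Finset.sum_involution (fun p _ => ⟨p.2, p.1⟩) ?_ ?_ ?_ ?_
    · rintro ⟨u, w⟩ h
      simp only
      rw [Finset.insert_comm]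
      have h2 : ∀ p : ZMod 2, p + p = 0 := by decide
      exact h2 _
    · rintro ⟨u, w⟩ h _ heq
      simp only [Finset.mem_sigma, Finset.mem_sdiff, Finset.mem_insert, not_or] at h
      simp only [Sigma.mk.injEq, heq_eq_eq] at heq
      exact h.2.2.1 heq.1
    · rintro ⟨u, w⟩ h
      simp only [Finset.mem_sigma, Finset.mem_sdiff, Finset.mem_insert, not_or] at h ⊢
      exact ⟨⟨h.2.1, h.2.2.2⟩, h.1.1, fun h1 => h.2.2.1 h1.symm, h.1.2⟩
    · rintro ⟨u, w⟩ _
      rfl

/-- the nonempty faces of a simplicial complex, with the empty face, are spherical -/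
theorem isSpherical_faces : IsSpherical (rkB (fun A : Finset V => A.card) S) := by
  have hrk : ∀ x, rkB (fun A : Finset V => A.card) S x = (stB x).card := by
    intro x
    induction x using WithBot.recBotCoe with
    | bot => rfl
    | coe u => rfl
  refine ⟨fun x y hxy => ?_, exactInterval_stB hne hdown⟩
  obtain ⟨v, hv, hy⟩ := stB_cov hne hdown x y hxy
  rw [hrk, hrk, hy, Finset.card_insert_of_notMem hv]

end

end Pool.Agent.H19.Hyp
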