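import Pool.Agent.H4.Singer2.PDefs

/-!
# Project HB: ranked sets of labels
-/

set_option autoImplicit false

open Finset

namespace Pool.Agent.H19.Hyp

open Pool.Agent.H4.Singer2

variable {L : Type} [PartialOrder L]

/-- the rank function on the set `S` of labels with a least element added -/
def rkB (rk : L → ℕ) (S : Finset L) (b : WithBot {w : L // w ∈ S}) : ℕ :=
  b.recBotCoe 0 fun w => rk w.1

/-- the rank function on the set `S` of labels with a least and a largest element added -/
def rkT (rk : L → ℕ) (n : ℕ) (S : Finset L) (b : WithTop (WithBot {w : L // w ∈ S})) : ℕ :=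
  b.recTopCoe (n + 1) (rkB rk S)

/-- The set `S` of labels, with a least element added, is graded by `rk` with ranks at most `n`, and all
its intervals are exact over the field of two elements; if `n` is odd the same holds with a largest
element of rank `n + 1` added (`S` is Gorenstein* of rank `n`). -/
def IsRanked [Fintype L] (rk : L → ℕ) (n : ℕ) (S : Finset L) : Prop :=
  (∀ v ∈ S, rk v ≤ n) ∧ IsSpherical (rkB rk S) ∧ (Odd n → IsSpherical (rkT rk n S))

end Pool.Agent.H19.Hyp
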