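import Pool.Agent.H19.Cub.Defs
import Pool.Agent.H4.Singer.Defs
import Pool.Agent.H19.Hyp.Rank

/-!
# Project HB (hyperbolizations): definitions

`K` is a field of characteristic two; labels `v : V` have colours `col v : C`; adjacent labels have
different colours. The coefficients are functions `(C → Bool) → N`; the operator `e v` acts on the
coordinate `col v` by the matrix `(1, t)ᵀ (t, 1)`, `t = t v`, which has square zero in characteristic two;
its kernel consists of the multiples of `(1, t)`. The involution `s v` acts by `1 + lam * e v`.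
-/

set_option autoImplicit false

open Finset

namespace Pool.Agent.H19.Hyp

open Pool.Agent.H19.Cub Pool.Agent.H4.Singer Pool.Agent.H85.Fold Pool.Agent.H85.Fold2

section ops

variable {C R N : Type} [DecidableEq C] [CommRing R] [AddCommGroup N] [Module R N]

/-- the operator `e` for the colour `c` and the parameter `t` -/
def eo (c : C) (t : R) (f : (C → Bool) → N) (a : C → Bool) : N :=
  (if a c = true then t else 1) •
    (t • f (Function.update a c false) + f (Function.update a c true))

/-- the operator `h` for the colour `c`: `e h = 1` on the kernel of `e` -/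
def ho (c : C) (f : (C → Bool) → N) (a : C → Bool) : N :=
  if a c = true then f (Function.update a c false) else 0

end ops

section chains

variable {V C X : Type} [DecidableEq V] [Fintype V] [DecidableEq C]

/-- the boundary without signs -/
def nd {A : Type} [AddCommMonoid A] (f : Finset V → X → A) (τ : Finset V) (x : X) : A :=
  ∑ v ∈ τᶜ, f (insert v τ) x

/-- the coloured graph -/
def colG (G : SimpleGraph V) (col : V → C) (hcol : ∀ u v, G.Adj u v → col u ≠ col v) :
    ColGraph V C where
  adj := G.Adj
  symm _ _ h := h.symm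
  col := col
  ne := hcol

/-- the bits flip with the involutions -/
def IsBit (col : V → C) (s : V → X → X) (bit : X → C → Bool) : Prop :=
  ∀ v x, bit (s v x) = Function.update (bit x) (col v) (!(bit x (col v)))

/-- `x` is the representative of its orbit under the involutions in `σ` -/
def Rep (col : V → C) (bit : X → C → Bool) (σ : Finset V) (x : X) : Prop :=
  ∀ v ∈ σ, bit x (col v) = false

/-- chains with values in the kernels of the operators `e v` -/
structure IsLoc {K : Type} [Field K] (G : SimpleGraph V) (Y : X → Finset V) (col : V → C)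
    (t : V → K) (i : ℕ) (f : Finset V → X → (C → Bool) → K) : Prop where
  supp : ∀ σ x, f σ x ≠ 0 → σ ⊆ Y x ∧ Cl G σ ∧ σ.card = i
  ker : ∀ σ, ∀ v ∈ σ, ∀ x, eo (col v) (t v) (f σ x) = 0

/-- local exactness in degree `i` -/
def ExactLoc {K : Type} [Field K] (G : SimpleGraph V) (Y : X → Finset V) (col : V → C)
    (t : V → K) (i : ℕ) : Prop :=
  ∀ f, IsLoc G Y col t i f → nd f = 0 → ∃ y, IsLoc G Y col t (i + 1) y ∧ nd y = f

/-- twisted chains: `s v` acts by `1 + lam * e v` -/
structure IsTw {R N : Type} [CommRing R] [AddCommGroup N] [Module R N] (G : SimpleGraph V)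
    (Y : X → Finset V) (col : V → C) (s : V → X → X) (lam : R) (t : V → R) (i : ℕ)
    (f : Finset V → X → (C → Bool) → N) : Prop where
  supp : ∀ σ x, f σ x ≠ 0 → σ ⊆ Y x ∧ Cl G σ ∧ σ.card = i
  tw : ∀ σ, ∀ v ∈ σ, ∀ x a, f σ (s v x) a = f σ x a + lam • eo (col v) (t v) (f σ x) a

/-- exactness in degree `i` of the twisted chains over a field -/
def ExactTw {F : Type} [Field F] (G : SimpleGraph V) (Y : X → Finset V) (col : V → C)
    (s : V → X → X) (lam : F) (t : V → F) (i : ℕ) : Prop :=
  ∀ f : Finset V → X → (C → Bool) → F, IsTw G Y col s lam t i f → nd f = 0 →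
    ∃ y : Finset V → X → (C → Bool) → F, IsTw G Y col s lam t (i + 1) y ∧ nd y = f

open Classical in
/-- The matrix of `1 + ε ^ k0 * e v` with `t v = ε ^ (k v)` on functions `(C → Bool) → K[ε]/ε^q`; the
coordinate `j : Fin q` is the coefficient of `ε ^ j`. -/
noncomputable def Bq (col : V → C) (k0 : ℕ) (k : V → ℕ) (q : ℕ) (v : V) :
    Matrix ((C → Bool) × Fin q) ((C → Bool) × Fin q) ℤ := fun p p' =>
  (if p = p' then 1 else 0) +
    (if p'.1 = Function.update p.1 (col v) (p'.1 (col v)) ∧
      (p.2 : ℕ) = p'.2 + (k0 + k v * ((p.1 (col v)).toNat + 1 - (p'.1 (col v)).toNat))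
      then 1 else 0)

end chains

end Pool.Agent.H19.Hyp
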