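import Pool.Agent.H19.Hyp.Mfd
import Pool.Agent.H4.HY.GenDual
import Pool.Agent.H4.HY.SphT

/-!
# Project HB: all degrees in the closed case
-/

set_option autoImplicit false

open Finset

namespace Pool.Agent.H19.Hyp

open Pool.Agent.H19.Cub Pool.Agent.H4.Singer2

/-- **The theorem for ranked cube complexes**, with the degrees below the middle for closed manifolds. -/
theorem ranked_full {L X : Type} [PartialOrder L] [Fintype L] [DecidableEq L] [Fintype X]
    (Q : CubeComplex L X) (hG : ∀ u v, Q.graph.Adj u v ↔ u < v ∨ v < u) (rk : L → ℕ)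
    (hrk : StrictMono rk) (n : ℕ) (S : X → Finset L) (hS : ∀ x, IsRanked rk n (S x))
    (hlab : ∀ x, Q.lab x ⊆ S x) (i : ℕ)
    (hi : n < 2 * i ∨ (∀ x, IsSpherical (rkT rk n (Q.lab x))) ∧ 2 * i ≠ n) (x : X) :
    L2HomologyZero (Q.cover x) i := by
  by_cases h : n < 2 * i
  · exact ranked_general Q hG rk hrk n S hS hlab i h x
  · obtain ⟨h1, h2⟩ := hi.resolve_left h
    have hij : i + (n - i) = n := by omega
    exact Pool.Agent.H4.HY.generalDual Q (colR rk) (colR_ne rk hrk Q.graph hG) hij
      (fun y => Pool.Agent.H4.HY.sphere_of_spherical Q.graph rk n (Q.lab y)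
        (fun u _ v _ => hG u v) (h1 y))
      (fun y => posVan rk hrk Q.graph hG n (S y) (Q.lab y) (hS y) (hlab y) (n - i) (by omega)) x

variable {V : Type} [DecidableEq V] [Fintype V]

/-- **Singer's conjecture for the hyperbolizations of closed manifolds.** -/
theorem hyp_manifold_full (Γ : Finset (Finset V)) (n : ℕ) (h : IsClosedManifold Γ n) (i : ℕ)
    (hi : 2 * i ≠ n) (x : {x // subd Γ x ∅}) :
    L2HomologyZero ((hyp (subd Γ) (isCubical_subd h.down)).cover x) i := by
  classical
  have h1 : ∀ x : {x // subd Γ x ∅}, x.1 ∈ Γ := fun x => by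
    have := x.2.1
    rwa [Finset.union_empty] at this
  exact ranked_full (hyp (subd Γ) (isCubical_subd h.down)) (fun _ _ => Iff.rfl) Finset.card
    (fun _ _ h => Finset.card_lt_card h) n (fun x => (hyp (subd Γ) (isCubical_subd h.down)).lab x)
    (fun x => mfd_lab h (h1 x) _ fun T => mem_hyp) (fun x => Finset.Subset.refl _) i
    (Or.inr ⟨fun x => (mfd_sph h (h1 x) _ fun T => mem_hyp).2.2, hi⟩) x

end Pool.Agent.H19.Hyp
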