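import Pool.Agent.H19.Hyp.Defs

/-!
# Project HB: the hyperbolization of a cubical complex

`K x S` means: the face of the cube `[0, 1]^V` with the vertex `x ∈ {0, 1}^V = Finset V` and the set `S` of
directions belongs to the subcomplex `K`.
-/

set_option autoImplicit false

open Finset

namespace Pool.Agent.H19.Hyp

open Pool.Agent.H19.Cub

variable {V : Type} [DecidableEq V] [Fintype V]

/-- `K` is a subcomplex of the cube `[0, 1]^V`: `K x S` says that the face through the vertex `x` (a point of
`{0, 1}^V`, given by the set of the coordinates equal to one) in the directions `S` belongs to `K`.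
It has the vertices `x + T`, `T ⊆ S`, and its faces belong to `K`. -/
structure IsCubical (K : Finset V → Finset V → Prop) : Prop where
  shift : ∀ x S T, K x S → T ⊆ S → K (symmDiff x T) S
  face : ∀ x S T, K x S → T ⊆ S → K x T

open Classical in
/-- The Möbius band hyperbolization of the cubical complex `K`: the vertices are those of `K`; at the
vertex `x` there is an edge for every face of `K` of positive dimension which contains `x`, labelled by its set `S`
of directions, and its other end is the vertex `x + S` opposite to `x` in this face; edges at `x` span a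
cube if their faces are nested. -/
noncomputable def hyp (K : Finset V → Finset V → Prop) (hK : IsCubical K) :
    CubeComplex (Finset V) {x // K x ∅} where
  graph :=
    { Adj := fun S T => S < T ∨ T < S
      symm := ⟨fun _ _ h => h.symm⟩
      loopless := ⟨fun _ h => h.elim (fun h => lt_irrefl _ h) (fun h => lt_irrefl _ h)⟩ }
  lab x := univ.filter fun S => S ≠ ∅ ∧ K x.1 S
  nb S x := if h : K x.1 S then
    ⟨symmDiff x.1 S, hK.face _ S ∅ (hK.shift _ _ _ h (Finset.Subset.refl S)) (Finset.empty_subset S)⟩ else x
  lab_nb S x h := by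
    rw [Finset.mem_filter] at h ⊢
    refine ⟨Finset.mem_univ _, h.2.1, ?_⟩
    rw [dif_pos h.2.2]
    exact hK.shift _ _ _ h.2.2 (Finset.Subset.refl S)
  nb_nb S x h := by
    rw [Finset.mem_filter] at h
    have h1 : K (symmDiff x.1 S) S := hK.shift _ _ _ h.2.2 (Finset.Subset.refl S)
    rw [dif_pos h.2.2, dif_pos h1]
    exact Subtype.ext (symmDiff_symmDiff_cancel_right S x.1)
  lab_adj S T x hST hS hT := by
    rw [Finset.mem_filter] at hS hT ⊢
    refine ⟨Finset.mem_univ _, hS.2.1, ?_⟩
    rw [dif_pos hT.2.2]
    rcases hST with h | h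
    · exact hK.face _ T S (hK.shift _ _ _ hT.2.2 (Finset.Subset.refl T)) h.le
    · exact hK.shift _ _ _ hS.2.2 h.le
  nb_comm S T x hST hS hT := by
    rw [Finset.mem_filter] at hS hT
    have h1 : K (symmDiff x.1 S) T ∧ K (symmDiff x.1 T) S := by
      rcases hST with h | h
      · exact ⟨hK.shift _ _ _ hT.2.2 h.le,
          hK.face _ T S (hK.shift _ _ _ hT.2.2 (Finset.Subset.refl T)) h.le⟩
      · exact ⟨hK.face _ S T (hK.shift _ _ _ hS.2.2 (Finset.Subset.refl S)) h.le,
          hK.shift _ _ _ hS.2.2 h.le⟩
    rw [dif_pos hT.2.2, dif_pos hS.2.2, dif_pos h1.1, dif_pos h1.2]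
    exact Subtype.ext (symmDiff_right_comm x.1 T S)

theorem mem_hyp {K : Finset V → Finset V → Prop} {hK : IsCubical K} {x : {x // K x ∅}}
    {S : Finset V} : S ∈ (hyp K hK).lab x ↔ S ≠ ∅ ∧ K x.1 S := by
  classical
  show S ∈ univ.filter _ ↔ _
  rw [Finset.mem_filter]
  exact ⟨fun h => h.2, fun h => ⟨Finset.mem_univ _, h⟩⟩

end Pool.Agent.H19.Hyp
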