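import Pool.Agent.H19.Hyp.Defs

/-!
# Project HB: links of vertices of the cubical subdivision of a simplicial complex

`Λ` is a set of faces closed under taking the subsets which contain some face. `bT Λ m z c` is the boundary of the
function with the value `z T` on the faces `T ∈ Λ` and the value `c` on an additional top element which
covers the faces with `m` elements.
-/

set_option autoImplicit false
set_option linter.unusedSectionVars false
set_option linter.unusedVariables false

open Finset

namespace Pool.Agent.H19.Hyp

variable {V : Type} [DecidableEq V] [Fintype V]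

/-- the boundary operator -/
def bT (Λ : Finset (Finset V)) (m : ℕ) (z : Finset V → ZMod 2) (c : ZMod 2) (x : Finset V) :
    ZMod 2 :=
  if x.card = m then c else ∑ u ∈ xᶜ, if insert u x ∈ Λ then z (insert u x) else 0

/-- every face with `m - 1` elements is in an even number of faces with `m` elements -/
def Ev (Λ : Finset (Finset V)) (m : ℕ) : Prop :=
  ∀ x ∈ Λ, x.card + 1 = m → ∑ u ∈ xᶜ, (if insert u x ∈ Λ then (1 : ZMod 2) else 0) = 0

/-- cycles above `A` are boundaries -/
def Ac (Λ : Finset (Finset V)) (A : Finset V) (m : ℕ) : Prop :=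
  ∀ (z : Finset V → ZMod 2) (c : ZMod 2), (∀ x ∈ Λ, A ⊆ x → bT Λ m z c x = 0) →
    c = 0 ∧ ∃ (y : Finset V → ZMod 2) (d : ZMod 2), ∀ x ∈ Λ, A ⊆ x → bT Λ m y d x = z x

theorem bT_of_card {Λ : Finset (Finset V)} {m : ℕ} {z : Finset V → ZMod 2} {c : ZMod 2}
    {x : Finset V} (h : x.card = m) : bT Λ m z c x = c := if_pos h

theorem bT_of_ne {Λ : Finset (Finset V)} {m : ℕ} {z : Finset V → ZMod 2} {c : ZMod 2}
    {x : Finset V} (h : x.card ≠ m) :
    bT Λ m z c x = ∑ u ∈ xᶜ, if insert u x ∈ Λ then z (insert u x) else 0 := if_neg h

theorem zmod2_add_self (p : ZMod 2) : p + p = 0 := by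
  revert p
  decide

theorem bT_add (Λ : Finset (Finset V)) (m : ℕ) (z z' : Finset V → ZMod 2) (c c' : ZMod 2)
    (x : Finset V) : bT Λ m (z + z') (c + c') x = bT Λ m z c x + bT Λ m z' c' x := by
  unfold bT
  split_ifs
  · rfl
  · rw [← Finset.sum_add_distrib]
    refine Finset.sum_congr rfl fun u _ => ?_
    split_ifs
    · rfl
    · rw [add_zero]

/-- `∂ ∂ = 0` -/
theorem bT_bT {Λ : Finset (Finset V)} {m : ℕ} (hE : Ev Λ m)
    (hd : ∀ x ∈ Λ, ∀ T ∈ Λ, x ⊆ T → ∀ U, x ⊆ U → U ⊆ T → U ∈ Λ) (y : Finset V → ZMod 2)
    (d : ZMod 2) (x : Finset V) (hx : x ∈ Λ) : bT Λ m (bT Λ m y d) 0 x = 0 := by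
  by_cases h1 : x.card = m
  · exact bT_of_card h1
  rw [bT_of_ne h1]
  by_cases h2 : x.card + 1 = m
  · have h3 : ∑ u ∈ xᶜ, (if insert u x ∈ Λ then bT Λ m y d (insert u x) else 0) =
        d * ∑ u ∈ xᶜ, (if insert u x ∈ Λ then (1 : ZMod 2) else 0) := by
      rw [Finset.mul_sum]
      refine Finset.sum_congr rfl fun u hu => ?_
      rw [Finset.mem_compl] at hu
      rw [bT_of_card (by rw [Finset.card_insert_of_notMem hu]; exact h2)]
      split_ifs
      · rw [mul_one]
      · rw [mul_zero]
    rw [h3, hE x hx h2, mul_zero]
  · have h3 : ∀ u ∈ xᶜ, (if insert u x ∈ Λ then bT Λ m y d (insert u x) else 0) =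
        ∑ w ∈ (insert u x)ᶜ, if insert w (insert u x) ∈ Λ then y (insert w (insert u x)) else 0 := by
      intro u hu
      rw [Finset.mem_compl] at hu
      rw [bT_of_ne (by rw [Finset.card_insert_of_notMem hu]; exact h2)]
      split_ifs with h4
      · rfl
      · symm
        refine Finset.sum_eq_zero fun w _ => ?_
        rw [if_neg]
        intro h5
        exact h4 (hd x hx _ h5 ((Finset.subset_insert u x).trans (Finset.subset_insert w _)) _
          (Finset.subset_insert u x) (Finset.subset_insert w _))
    rw [Finset.sum_congr rfl h3, Finset.sum_sigma']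
    refine Finset.sum_involution (fun p _ => ⟨p.2, p.1⟩) ?_ ?_ ?_ ?_
    · rintro ⟨u, w⟩ h
      simp only
      rw [Finset.insert_comm]
      exact zmod2_add_self _
    · rintro ⟨u, w⟩ h _ heq
      simp only [Finset.mem_sigma, Finset.mem_compl, Finset.mem_insert, not_or] at h
      simp only [Sigma.mk.injEq, heq_eq_eq] at heq
      exact h.2.1 heq.1
    · rintro ⟨u, w⟩ h
      simp only [Finset.mem_sigma, Finset.mem_compl, Finset.mem_insert, not_or] at h ⊢
      exact ⟨h.2.2, fun h1 => h.2.1 h1.symm, h.1⟩
    · rintro ⟨u, w⟩ _
      rfl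

/-- the faces of the link of the vertex `σ` in the cubical subdivision of `Γ` -/
def lkS (Γ : Finset (Finset V)) (σ : Finset V) : Finset (Finset V) :=
  univ.filter fun S => σ ∪ S ∈ Γ ∧ ¬ σ ⊆ S

theorem mem_lkS {Γ : Finset (Finset V)} {σ S : Finset V} :
    S ∈ lkS Γ σ ↔ σ ∪ S ∈ Γ ∧ ¬ σ ⊆ S := by
  rw [lkS, Finset.mem_filter]
  exact ⟨fun h => h.2, fun h => ⟨Finset.mem_univ _, h⟩⟩

section

variable {Γ : Finset (Finset V)} {n : ℕ} (hdown : ∀ A ∈ Γ, ∀ B, B ⊆ A → B ≠ ∅ → B ∈ Γ)
  (hpure : ∀ A ∈ Γ, ∃ F ∈ Γ, A ⊆ F ∧ F.card = n + 1) (hcard : ∀ A ∈ Γ, A.card ≤ n + 1)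

include hdown in
theorem lkS_down {σ : Finset V} (hσ : σ.Nonempty) {S T : Finset V} (hS : S ∈ lkS Γ σ)
    (hT : T ⊆ S) : T ∈ lkS Γ σ := by
  rw [mem_lkS] at hS ⊢
  refine ⟨hdown _ hS.1 _ (Finset.union_subset_union_right hT) ?_, fun h => hS.2 (h.trans hT)⟩
  exact (hσ.mono Finset.subset_union_left).ne_empty

include hcard in
theorem lkS_card {σ : Finset V} {S : Finset V} (hS : S ∈ lkS Γ σ) : S.card ≤ n := by
  rw [mem_lkS] at hS
  obtain ⟨v, hv, hvS⟩ := Finset.not_subset.1 hS.2
  have h1 : (insert v S).card ≤ (σ ∪ S).card :=
    Finset.card_le_card (Finset.insert_subset (Finset.mem_union_left _ hv)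
      Finset.subset_union_right)
  rw [Finset.card_insert_of_notMem hvS] at h1
  have := hcard _ hS.1
  omega

include hdown hpure hcard in
theorem lkS_pure {σ : Finset V} (hσ : σ.Nonempty) {S : Finset V} (hS : S ∈ lkS Γ σ) :
    ∃ T ∈ lkS Γ σ, S ⊆ T ∧ T.card = n := by
  rw [mem_lkS] at hS
  obtain ⟨F, hF, hSF, hFc⟩ := hpure _ hS.1
  obtain ⟨v, hv, hvS⟩ := Finset.not_subset.1 hS.2
  have hvF : v ∈ F := hSF (Finset.mem_union_left _ hv)
  refine ⟨F.erase v, ?_, ?_, ?_⟩
  · rw [mem_lkS]
    have h1 : σ ∪ F.erase v = F := by
      ext u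
      rw [Finset.mem_union, Finset.mem_erase]
      constructor
      · rintro (h | h)
        · exact hSF (Finset.mem_union_left _ h)
        · exact h.2
      · intro h
        by_cases hu : u = v
        · exact Or.inl (hu ▸ hv)
        · exact Or.inr ⟨hu, h⟩
    rw [h1]
    exact ⟨hF, fun h => (Finset.mem_erase.1 (h hv)).1 rfl⟩
  · intro u hu
    rw [Finset.mem_erase]
    exact ⟨fun h => hvS (h ▸ hu), hSF (Finset.mem_union_right _ hu)⟩
  · rw [Finset.card_erase_of_mem hvF, hFc]
    omega

include hdown hcard in
theorem lkS_ev (hE : Ev Γ (n + 1)) {σ : Finset V} (hσ : σ.Nonempty) : Ev (lkS Γ σ) n := by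
  intro x hx hxc
  have hx' := mem_lkS.1 hx
  obtain ⟨v, hv, hvx⟩ := Finset.not_subset.1 hx'.2
  have h2 := hcard _ hx'.1
  by_cases h1 : ∃ w ∈ σ, w ∉ x ∧ w ≠ v
  · -- two labels
    obtain ⟨w, hw, hwx, hwv⟩ := h1
    have h3 : insert v (insert w x) ⊆ σ ∪ x :=
      Finset.insert_subset (Finset.mem_union_left _ hv)
        (Finset.insert_subset (Finset.mem_union_left _ hw) Finset.subset_union_right)
    have h4 : (insert v (insert w x)).card = n + 1 := by
      rw [Finset.card_insert_of_notMem, Finset.card_insert_of_notMem hwx]
      · omega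
      · rw [Finset.mem_insert]
        rintro (h | h)
        · exact hwv h.symm
        · exact hvx h
    have h5 : insert v (insert w x) = σ ∪ x := Finset.eq_of_subset_of_card_le h3 (by omega)
    have h6 : ∀ u ∈ xᶜ, (insert u x ∈ lkS Γ σ ↔ u = v ∨ u = w) := by
      intro u hu
      rw [Finset.mem_compl] at hu
      rw [mem_lkS]
      constructor
      · rintro ⟨h7, -⟩
        have h8 : σ ∪ insert u x = insert u (insert v (insert w x)) := by
          rw [h5, Finset.union_insert]
        rw [h8] at h7
        have h9 := hcard _ h7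
        by_contra h10
        push Not at h10
        rw [Finset.card_insert_of_notMem, h4] at h9
        · omega
        · simp only [Finset.mem_insert, not_or]
          exact ⟨h10.1, h10.2, hu⟩
      · intro h7
        have h8 : u ∈ σ := by
          rcases h7 with rfl | rfl
          · exact hv
          · exact hw
        have h9 : σ ∪ insert u x = σ ∪ x := by
          rw [Finset.union_insert, Finset.insert_eq_of_mem (Finset.mem_union_left _ h8)]
        rw [h9]
        refine ⟨hx'.1, fun h10 => ?_⟩
        rcases h7 with rfl | rfl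
        · rcases Finset.mem_insert.1 (h10 hw) with h11 | h11
          · exact hwv h11
          · exact hwx h11
        · rcases Finset.mem_insert.1 (h10 hv) with h11 | h11
          · exact hwv h11.symm
          · exact hvx h11
    have h7 : ∑ u ∈ xᶜ, (if insert u x ∈ lkS Γ σ then (1 : ZMod 2) else 0) =
        ∑ u ∈ xᶜ, ((if u = v then (1 : ZMod 2) else 0) + if u = w then 1 else 0) := by
      refine Finset.sum_congr rfl fun u hu => ?_
      by_cases h8 : u = v
      · rw [if_pos ((h6 u hu).2 (Or.inl h8)), if_pos h8, if_neg, add_zero]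
        rintro rfl
        exact hwv h8
      · by_cases h9 : u = w
        · rw [if_pos ((h6 u hu).2 (Or.inr h9)), if_neg h8, if_pos h9, zero_add]
        · rw [if_neg, if_neg h8, if_neg h9, add_zero]
          rw [h6 u hu]
          rintro (h | h)
          · exact h8 h
          · exact h9 h
    rw [h7, Finset.sum_add_distrib, Finset.sum_ite_eq', Finset.sum_ite_eq',
      if_pos (Finset.mem_compl.2 hvx), if_pos (Finset.mem_compl.2 hwx)]
    exact zmod2_add_self _
  · push Not at h1
    -- `σ ∪ x = insert v x` is a ridge of `Γ`
    have h3 : σ ∪ x = insert v x := by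
      ext u
      rw [Finset.mem_union, Finset.mem_insert]
      constructor
      · rintro (h | h)
        · by_cases hu : u ∈ x
          · exact Or.inr hu
          · exact Or.inl (h1 u h hu)
        · exact Or.inr h
      · rintro (rfl | h)
        · exact Or.inl hv
        · exact Or.inr h
    have h4 : insert v x ∈ Γ := h3 ▸ hx'.1
    have h5 := hE (insert v x) h4 (by rw [Finset.card_insert_of_notMem hvx]; omega)
    have h6 : ∑ u ∈ (insert v x)ᶜ, (if insert u (insert v x) ∈ Γ then (1 : ZMod 2) else 0) =
        ∑ u ∈ xᶜ, (if insert u x ∈ lkS Γ σ then (1 : ZMod 2) else 0) := by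
      have h7 : xᶜ = insert v (insert v x)ᶜ := by
        ext u
        simp only [Finset.mem_compl, Finset.mem_insert, not_or]
        constructor
        · intro h
          by_cases hu : u = v
          · exact Or.inl hu
          · exact Or.inr ⟨hu, h⟩
        · rintro (rfl | h)
          · exact hvx
          · exact h.2
      rw [h7, Finset.sum_insert (by simp), if_neg, zero_add]
      · refine Finset.sum_congr rfl fun u hu => ?_
        simp only [Finset.mem_compl, Finset.mem_insert, not_or] at hu
        have h8 : insert u x ∈ lkS Γ σ ↔ insert u (insert v x) ∈ Γ := by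
          rw [mem_lkS, Finset.union_insert, h3]
          refine ⟨fun h => h.1, fun h => ⟨h, fun h9 => ?_⟩⟩
          rcases Finset.mem_insert.1 (h9 hv) with h10 | h10
          · exact hu.1 h10.symm
          · exact hvx h10
        by_cases h9 : insert u x ∈ lkS Γ σ
        · rw [if_pos h9, if_pos (h8.1 h9)]
        · rw [if_neg h9, if_neg fun h => h9 (h8.2 h)]
      · rw [mem_lkS]
        rintro ⟨-, h8⟩
        exact h8 fun u hu => by
          rw [← h3]
          exact Finset.mem_union_left _ hu
    rw [← h6]
    exact h5

/-- base of the induction: `σ \ A` has one element -/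
theorem lkS_ac_base {σ A : Finset V} {v : V} (hv : v ∈ σ) (hvA : v ∉ A)
    (hσ : ∀ u ∈ σ, u ≠ v → u ∈ A) (h : Ac Γ (insert v A) (n + 1)) : Ac (lkS Γ σ) A n := by
  intro z c hz
  have hmem : ∀ T, A ⊆ T → (T ∈ lkS Γ σ ↔ v ∉ T ∧ insert v T ∈ Γ) := by
    intro T hT
    have h1 : σ ∪ T = insert v T := by
      ext u
      rw [Finset.mem_union, Finset.mem_insert]
      constructor
      · rintro (h | h)
        · by_cases hu : u = v
          · exact Or.inl hu
          · exact Or.inr (hT (hσ u h hu))
        · exact Or.inr h
      · rintro (rfl | h)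
        · exact Or.inl hv
        · exact Or.inr h
    rw [mem_lkS, h1, and_comm]
    refine and_congr_left fun _ => ⟨fun h2 h3 => h2 fun u hu => ?_, fun h2 h3 => h2 (h3 hv)⟩
    by_cases huv : u = v
    · exact huv ▸ h3
    · exact hT (hσ u hu huv)
  have hbT : ∀ (f : Finset V → ZMod 2) (c : ZMod 2) (x : Finset V), v ∉ x → A ⊆ x →
      bT Γ (n + 1) (fun T => f (T.erase v)) c (insert v x) = bT (lkS Γ σ) n f c x := by
    intro f c x hvx hAx
    unfold bT
    rw [Finset.card_insert_of_notMem hvx]
    by_cases h1 : x.card = n
    · rw [if_pos h1, if_pos (by omega)]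
    · rw [if_neg h1, if_neg (by omega)]
      have h7 : xᶜ = insert v (insert v x)ᶜ := by
        ext u
        simp only [Finset.mem_compl, Finset.mem_insert, not_or]
        constructor
        · intro h
          by_cases hu : u = v
          · exact Or.inl hu
          · exact Or.inr ⟨hu, h⟩
        · rintro (rfl | h)
          · exact hvx
          · exact h.2
      rw [h7, Finset.sum_insert (by simp), if_neg, zero_add]
      · refine Finset.sum_congr rfl fun u hu => ?_
        simp only [Finset.mem_compl, Finset.mem_insert, not_or] at hu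
        have h8 := hmem (insert u x) (hAx.trans (Finset.subset_insert _ _))
        have h9 : v ∉ insert u x := by
          rw [Finset.mem_insert]
          rintro (h | h)
          · exact hu.1 h.symm
          · exact hvx h
        have h10 : (insert u (insert v x)).erase v = insert u x := by
          rw [Finset.insert_comm, Finset.erase_insert h9]
        by_cases h11 : insert u x ∈ lkS Γ σ
        · have h12 := (h8.1 h11).2
          rw [Finset.insert_comm] at h12
          rw [if_pos h11, if_pos h12]
          show f ((insert u (insert v x)).erase v) = f (insert u x)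
          rw [h10]
        · rw [if_neg h11, if_neg]
          intro h12
          rw [Finset.insert_comm] at h12
          exact h11 (h8.2 ⟨h9, h12⟩)
      · rw [hmem _ (hAx.trans (Finset.subset_insert _ _))]
        exact fun h => h.1 (Finset.mem_insert_self _ _)
  obtain ⟨h1, y, d, hy⟩ := h (fun T => z (T.erase v)) c (by
    intro x hx hAx
    have h2 : v ∈ x := hAx (Finset.mem_insert_self _ _)
    have h3 : insert v (x.erase v) = x := Finset.insert_erase h2
    have h4 : A ⊆ x.erase v := by
      intro u hu
      rw [Finset.mem_erase]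
      exact ⟨fun h => hvA (h ▸ hu), hAx (Finset.mem_insert_of_mem hu)⟩
    rw [← h3, hbT z c (x.erase v) (Finset.notMem_erase v x) h4]
    exact hz _ ((hmem _ h4).2 ⟨Finset.notMem_erase v x, by rw [h3]; exact hx⟩) h4)
  refine ⟨h1, fun T => y (insert v T), d, fun x hx hAx => ?_⟩
  obtain ⟨h2, h3⟩ := (hmem x hAx).1 hx
  have h4 := hy (insert v x) h3 (Finset.insert_subset_insert v hAx)
  rw [Finset.erase_insert h2] at h4
  rw [← h4, ← hbT (fun T => y (insert v T)) d x h2 hAx]
  unfold bT
  split_ifs
  · rfl
  · refine Finset.sum_congr rfl fun u hu => ?_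
    have h5 : insert v ((insert u (insert v x)).erase v) = insert u (insert v x) :=
      Finset.insert_erase (Finset.mem_insert_of_mem (Finset.mem_insert_self v x))
    simp only [h5]

include hdown hcard in
/-- induction step -/
theorem lkS_ac_step (hE : Ev Γ (n + 1)) {σ A : Finset V} {v w : V} (hv : v ∈ σ) (hw : w ∈ σ)
    (hvA : v ∉ A) (hwA : w ∉ A) (hvw : v ≠ w) (h : Ac (lkS Γ σ) (insert v A) n) :
    Ac (lkS Γ σ) A n := by
  have hσ : σ.Nonempty := ⟨v, hv⟩
  have hd : ∀ x ∈ lkS Γ σ, ∀ T ∈ lkS Γ σ, x ⊆ T → ∀ U, x ⊆ U → U ⊆ T → U ∈ lkS Γ σ :=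
    fun _ _ T hT _ U _ hU => lkS_down hdown hσ hT hU
  intro z c hz
  obtain ⟨h1, y, d, hy⟩ := h z c fun x hx hAx => hz x hx ((Finset.subset_insert _ _).trans hAx)
  refine ⟨h1, ?_⟩
  subst h1
  obtain ⟨y1, hy1⟩ : ∃ y1 : Finset V → ZMod 2, y1 = fun T => if v ∈ T then y T else 0 := ⟨_, rfl⟩
  obtain ⟨z', hz'⟩ : ∃ z' : Finset V → ZMod 2, z' = z + bT (lkS Γ σ) n y1 d := ⟨_, rfl⟩
  have hz'0 : ∀ x ∈ lkS Γ σ, A ⊆ x → bT (lkS Γ σ) n z' 0 x = 0 := by
    intro x hx hAx
    have h2 := bT_add (lkS Γ σ) n z (bT (lkS Γ σ) n y1 d) 0 0 x
    rw [add_zero] at h2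
    rw [hz', h2, hz x hx hAx, bT_bT (lkS_ev hdown hcard hE hσ) hd y1 d x hx, add_zero]
  have hz'v : ∀ x ∈ lkS Γ σ, A ⊆ x → v ∈ x → z' x = 0 := by
    intro x hx hAx hvx
    have h2 : bT (lkS Γ σ) n y1 d x = bT (lkS Γ σ) n y d x := by
      unfold bT
      split_ifs
      · rfl
      · refine Finset.sum_congr rfl fun u _ => ?_
        rw [hy1]
        simp only [if_pos (Finset.mem_insert_of_mem hvx)]
    rw [hz', Pi.add_apply, h2, hy x hx (Finset.insert_subset hvx hAx)]
    exact zmod2_add_self _
  -- contract with `w`
  refine ⟨y1 + fun T => if w ∈ T ∧ v ∉ T then z' (T.erase w) else 0, d + 0, fun x hx hAx => ?_⟩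
  rw [bT_add]
  have hwant : bT (lkS Γ σ) n (fun T => if w ∈ T ∧ v ∉ T then z' (T.erase w) else 0) 0 x =
      z' x := by
    by_cases hvx : v ∈ x
    · rw [hz'v x hx hAx hvx]
      unfold bT
      split_ifs
      · rfl
      · refine Finset.sum_eq_zero fun u _ => ?_
        beta_reduce
        split_ifs with h3 h4
        · exact absurd (Finset.mem_insert_of_mem hvx) h4.2
        · rfl
        · rfl
    -- `insert w x` is a face if `w ∉ x`
    have hx' := mem_lkS.1 hx
    have hins : insert w x ∈ lkS Γ σ := by
      rw [mem_lkS, Finset.union_insert,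
        Finset.insert_eq_of_mem (Finset.mem_union_left _ hw)]
      refine ⟨hx'.1, fun h3 => ?_⟩
      rcases Finset.mem_insert.1 (h3 hv) with h4 | h4
      · exact hvw h4
      · exact hvx h4
    by_cases hwx : w ∈ x
    · -- the boundary of `z'` at `x \ w`
      have h3 : x.erase w ∈ lkS Γ σ := lkS_down hdown hσ hx (Finset.erase_subset _ _)
      have h4 : A ⊆ x.erase w := by
        intro u hu
        rw [Finset.mem_erase]
        exact ⟨fun h => hwA (h ▸ hu), hAx hu⟩
      have h5 := hz'0 _ h3 h4
      have h6 : (x.erase w).card + 1 = x.card := Finset.card_erase_add_one hwx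
      have h7 := lkS_card hcard hx
      rw [bT_of_ne (by omega)] at h5
      have h8 : (x.erase w)ᶜ = insert w xᶜ := by
        ext u
        simp only [Finset.mem_compl, Finset.mem_erase, Finset.mem_insert, not_and_or]
        constructor
        · rintro (h | h)
          · exact Or.inl (not_not.1 h)
          · exact Or.inr h
        · rintro (h | h)
          · exact Or.inl (not_not.2 h)
          · exact Or.inr h
      rw [h8, Finset.sum_insert (by simpa using hwx), Finset.insert_erase hwx, if_pos hx] at h5
      have h9 : ∑ u ∈ xᶜ, (if insert u (x.erase w) ∈ lkS Γ σ then z' (insert u (x.erase w)) else 0)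
          = z' x := by
        have h10 : ∀ p q : ZMod 2, p + q = 0 → q = p := by decide
        exact h10 _ _ h5
      -- all faces have at most `n` elements
      by_cases hxn : x.card = n
      · rw [bT_of_card hxn]
        -- `x \ w ∪ v` and `x`: the sum has the only terms `u ∈ σ`
        rw [← h9]
        symm
        refine Finset.sum_eq_zero fun u hu => ?_
        rw [Finset.mem_compl] at hu
        split_ifs with h11
        · -- `insert u (x \ w)` contains `v`, or `insert v (insert w ..)` is too large
          by_cases huv : u = v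
          · subst huv
            exact hz'v _ h11 (h4.trans (Finset.subset_insert _ _)) (Finset.mem_insert_self _ _)
          · exfalso
            rw [mem_lkS] at h11
            have h12 : insert v (insert w (insert u (x.erase w))) ⊆ σ ∪ insert u (x.erase w) :=
              Finset.insert_subset (Finset.mem_union_left _ hv)
                (Finset.insert_subset (Finset.mem_union_left _ hw) Finset.subset_union_right)
            have h13 := Finset.card_le_card h12
            have h14 := hcard _ h11.1
            rw [Finset.insert_comm w u, Finset.insert_erase hwx, Finset.card_insert_of_notMem,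
              Finset.card_insert_of_notMem hu] at h13
            · omega
            · rw [Finset.mem_insert]
              rintro (h | h)
              · exact huv h.symm
              · exact hvx h
        · rfl
      · rw [bT_of_ne hxn, ← h9]
        refine Finset.sum_congr rfl fun u hu => ?_
        rw [Finset.mem_compl] at hu
        have huw : u ≠ w := fun h => hu (h ▸ hwx)
        by_cases huv : u = v
        · subst huv
          have h11 : (if insert u (x.erase w) ∈ lkS Γ σ then z' (insert u (x.erase w)) else 0) =
              0 := by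
            split_ifs with h12
            · exact hz'v _ h12 (h4.trans (Finset.subset_insert _ _)) (Finset.mem_insert_self _ _)
            · rfl
          rw [h11]
          split_ifs with h12 h13
          · exact absurd (Finset.mem_insert_self _ _) h13.2
          · rfl
          · rfl
        · have h11 : w ∈ insert u x ∧ v ∉ insert u x := by
            refine ⟨Finset.mem_insert_of_mem hwx, ?_⟩
            rw [Finset.mem_insert]
            rintro (h | h)
            · exact huv h.symm
            · exact hvx h
          have h12 : (insert u x).erase w = insert u (x.erase w) :=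
            Finset.erase_insert_of_ne huw
          have h13 : insert u x ∈ lkS Γ σ ↔ insert u (x.erase w) ∈ lkS Γ σ := by
            constructor
            · intro h14
              exact lkS_down hdown hσ h14 (Finset.insert_subset_insert u (Finset.erase_subset _ _))
            · intro h14
              rw [mem_lkS] at h14 ⊢
              have h15 : σ ∪ insert u x = σ ∪ insert u (x.erase w) := by
                ext a
                simp only [Finset.mem_union, Finset.mem_insert, Finset.mem_erase]
                constructor
                · rintro (h | h | h)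
                  · exact Or.inl h
                  · exact Or.inr (Or.inl h)
                  · by_cases ha : a = w
                    · exact Or.inl (ha ▸ hw)
                    · exact Or.inr (Or.inr ⟨ha, h⟩)
                · rintro (h | h | h)
                  · exact Or.inl h
                  · exact Or.inr (Or.inl h)
                  · exact Or.inr (Or.inr h.2)
              rw [h15]
              exact ⟨h14.1, fun h16 => h11.2 (h16 hv)⟩
          by_cases h14 : insert u x ∈ lkS Γ σ
          · rw [if_pos h14, if_pos (h13.1 h14), if_pos h11, h12]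
          · rw [if_neg h14, if_neg fun h => h14 (h13.2 h)]
    · -- only the term `u = w`
      have h3 := lkS_card hcard hins
      rw [Finset.card_insert_of_notMem hwx] at h3
      rw [bT_of_ne (by omega), Finset.sum_eq_single w]
      · rw [if_pos hins, if_pos, Finset.erase_insert hwx]
        refine ⟨Finset.mem_insert_self _ _, ?_⟩
        rw [Finset.mem_insert]
        rintro (h | h)
        · exact hvw h
        · exact hvx h
      · intro u _ huw
        split_ifs with h4 h5
        · rcases Finset.mem_insert.1 h5.1 with h6 | h6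
          · exact absurd h6.symm huw
          · exact absurd h6 hwx
        · rfl
        · rfl
      · intro h4
        exact absurd (Finset.mem_compl.2 hwx) h4
  rw [hwant, hz', Pi.add_apply]
  have h3 : ∀ p q : ZMod 2, p + (q + p) = q := by decide
  exact h3 _ _

include hdown hcard in
/-- cycles above a face of the link are boundaries -/
theorem lkS_ac (hE : Ev Γ (n + 1)) (hA : ∀ B ∈ Γ, Ac Γ B (n + 1)) {σ : Finset V} :
    ∀ A ∈ lkS Γ σ, Ac (lkS Γ σ) A n := by
  have key : ∀ k : ℕ, ∀ A ∈ lkS Γ σ, (σ \ A).card = k → Ac (lkS Γ σ) A n := by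
    intro k
    induction k with
    | zero =>
      intro A hA' h0
      exfalso
      rw [Finset.card_eq_zero, Finset.sdiff_eq_empty_iff_subset] at h0
      exact (mem_lkS.1 hA').2 h0
    | succ k ih =>
      intro A hA' hk
      have hA1 := mem_lkS.1 hA'
      obtain ⟨v, hv⟩ : (σ \ A).Nonempty := by
        rw [← Finset.card_pos]
        omega
      have hv' := Finset.mem_sdiff.1 hv
      by_cases hw : ∃ w ∈ σ, w ∉ A ∧ w ≠ v
      · obtain ⟨w, hwσ, hwA, hwv⟩ := hw
        refine lkS_ac_step hdown hcard hE hv'.1 hwσ hv'.2 hwA (Ne.symm hwv) (ih _ ?_ ?_)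
        · rw [mem_lkS, Finset.union_insert,
            Finset.insert_eq_of_mem (Finset.mem_union_left _ hv'.1)]
          refine ⟨hA1.1, fun h => ?_⟩
          rcases Finset.mem_insert.1 (h hwσ) with h1 | h1
          · exact hwv h1
          · exact hwA h1
        · have h1 : σ \ insert v A = (σ \ A).erase v := by
            ext u
            simp only [Finset.mem_sdiff, Finset.mem_insert, Finset.mem_erase, not_or]
            tauto
          rw [h1, Finset.card_erase_of_mem hv, hk]
          rfl
      · push Not at hw
        refine lkS_ac_base hv'.1 hv'.2 (fun u hu huv => ?_) (hA _ ?_)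
        · by_contra h
          exact huv (hw u hu h)
        · have h1 : σ ∪ A = insert v A := by
            ext u
            rw [Finset.mem_union, Finset.mem_insert]
            constructor
            · rintro (h | h)
              · by_cases hu : u ∈ A
                · exact Or.inr hu
                · exact Or.inl (hw u h hu)
              · exact Or.inr h
            · rintro (rfl | h)
              · exact Or.inl hv'.1
              · exact Or.inr h
          exact h1 ▸ hA1.1
  intro A hA'
  exact key _ A hA' rfl

end

end Pool.Agent.H19.Hyp
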