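import Pool.Agent.H19.Hyp.Ranked
import Pool.Agent.H19.Hyp.Bool
import Pool.Agent.H19.Hyp.HypK

/-!
# Project HB: hyperbolizations of cubical complexes
-/

set_option autoImplicit false

open Finset

namespace Pool.Agent.H19.Hyp

open Pool.Agent.H19.Cub

variable {V : Type} [DecidableEq V] [Fintype V]

/-- in even dimensions the links may be arbitrary -/
theorem isRanked_faces {S : Finset (Finset V)} (hne : ∀ A ∈ S, A ≠ ∅)
    (hdown : ∀ A ∈ S, ∀ B, B ⊆ A → B ≠ ∅ → B ∈ S) (n : ℕ) (hn : Even n)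
    (hd : ∀ A ∈ S, A.card ≤ n) : IsRanked Finset.card n S :=
  ⟨hd, isSpherical_faces hne hdown, fun h => absurd hn (Nat.not_even_iff_odd.2 h)⟩

open Classical in
/-- **Singer's conjecture above the middle for hyperbolized cubical complexes.** -/
theorem hyp_general (K : Finset V → Finset V → Prop) (hK : IsCubical K) (n : ℕ)
    (hdim : ∀ x S, K x S → S.card ≤ n)
    (hlink : Odd n → ∀ x : {x // K x ∅}, IsRanked Finset.card n ((hyp K hK).lab x))
    (i : ℕ) (hi : n < 2 * i) (x : {x // K x ∅}) :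
    L2HomologyZero ((hyp K hK).cover x) i := by
  refine ranked_general (hyp K hK) (fun _ _ => Iff.rfl) Finset.card
    (fun _ _ h => Finset.card_lt_card h) n (fun x => (hyp K hK).lab x) (fun x => ?_)
    (fun x => Finset.Subset.refl _) i hi x
  rcases Nat.even_or_odd n with hn | hn
  · refine isRanked_faces (fun A hA => (mem_hyp.1 hA).1) (fun A hA B hB h0 => ?_) n hn
      fun A hA => hdim _ _ (mem_hyp.1 hA).2
    exact mem_hyp.2 ⟨h0, hK.face _ _ _ (mem_hyp.1 hA).2 hB⟩
  · exact hlink hn x

end Pool.Agent.H19.Hyp
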