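import Pool.Agent.H19.Hyp.HypK
import Pool.Agent.H4.Singer2.PDefs

/-!
# Project HB: triangulated manifolds and their cubical subdivisions
-/

set_option autoImplicit false

open Finset

namespace Pool.Agent.H19.Hyp

open Pool.Agent.H4.Singer2

variable {V : Type} [DecidableEq V] [Fintype V]

/-- the number of vertices of a simplex; the additional largest element has the rank `n + 2` -/
def rkM (Γ : Finset (Finset V)) (n : ℕ) (x : WithTop {σ // σ ∈ Γ}) : ℕ :=
  x.recTopCoe (n + 2) fun σ => σ.1.card

/-- `Γ`, the set of the (nonempty) simplices of a finite simplicial complex, is a closed homology manifold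
of dimension `n` over the field of two elements: the maximal simplices have `n + 1` vertices, and the link of
every simplex `σ` has the homology of a sphere (exactness of the interval between `σ` and the additional
largest element). -/
structure IsClosedManifold (Γ : Finset (Finset V)) (n : ℕ) : Prop where
  ne : ∅ ∉ Γ
  down : ∀ σ ∈ Γ, ∀ τ, τ ⊆ σ → τ ≠ ∅ → τ ∈ Γ
  sph : IsSpherical (rkM Γ n)

/-- The standard cubical subdivision of the simplicial complex `Γ`: the vertices are the simplices `σ`, the
cubes are the intervals `[ρ, τ]` of simplices; the one with the vertex `σ` and the directions `S` is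
`[σ \ S, σ ∪ S]`. -/
def subd (Γ : Finset (Finset V)) (σ S : Finset V) : Prop := σ ∪ S ∈ Γ ∧ ¬ σ ⊆ S

theorem isCubical_subd {Γ : Finset (Finset V)}
    (hdown : ∀ σ ∈ Γ, ∀ τ, τ ⊆ σ → τ ≠ ∅ → τ ∈ Γ) : IsCubical (subd Γ) where
  shift x S T h hT := by
    obtain ⟨h1, h2⟩ := h
    have h3 : symmDiff x T ∪ S = x ∪ S := by
      ext u
      simp only [Finset.mem_union, Finset.mem_symmDiff]
      constructor
      · rintro ((h | h) | h)
        · exact Or.inl h.1
        · exact Or.inr (hT h.1)
        · exact Or.inr h
      · rintro (h | h)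
        · by_cases h4 : u ∈ T
          · exact Or.inr (hT h4)
          · exact Or.inl (Or.inl ⟨h, h4⟩)
        · exact Or.inr h
    refine ⟨by rw [h3]; exact h1, fun h4 => h2 fun u hu => ?_⟩
    by_cases h5 : u ∈ T
    · exact hT h5
    · exact h4 (Finset.mem_symmDiff.2 (Or.inl ⟨hu, h5⟩))
  face x S T h hT := by
    obtain ⟨h1, h2⟩ := h
    refine ⟨hdown _ h1 _ (Finset.union_subset_union_right hT) fun h3 => h2 fun u hu => ?_,
      fun h3 => h2 (h3.trans hT)⟩
    have h4 : u ∈ x ∪ T := Finset.mem_union_left _ hu
    rw [h3] at h4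
    exact absurd h4 (Finset.notMem_empty u)

end Pool.Agent.H19.Hyp
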