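import Pool.Agent.H19.Hyp.SphTop
import Pool.Agent.H19.Hyp.Subd
import Pool.Agent.H19.Hyp.Main

/-!
# Project HB: hyperbolizations of triangulated manifolds
-/

set_option autoImplicit false

open Finset

namespace Pool.Agent.H19.Hyp

open Pool.Agent.H4.Singer2 Pool.Agent.H19.Cub

variable {V : Type} [DecidableEq V] [Fintype V]

section

variable {Γ : Finset (Finset V)} {n : ℕ} (h : IsClosedManifold Γ n)

include h

theorem mfd_max (σ : Finset V) (hσ : σ ∈ Γ) : ∃ F ∈ Γ, σ ⊆ F ∧ F.card = n + 1 := by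
  classical
  obtain ⟨F, hF, hmax⟩ := (Γ.filter fun F => σ ⊆ F).exists_max_image Finset.card
    ⟨σ, Finset.mem_filter.2 ⟨hσ, Finset.Subset.refl σ⟩⟩
  rw [Finset.mem_filter] at hF
  refine ⟨F, hF.1, hF.2, ?_⟩
  have h1 : ((⟨F, hF.1⟩ : {σ // σ ∈ Γ}) : WithTop {σ // σ ∈ Γ}) ⋖ ⊤ := by
    rw [WithTop.coe_covBy_top]
    rintro ⟨G, hG⟩ hFG
    have h2 : F ⊆ G := hFG
    have h3 := hmax G (Finset.mem_filter.2 ⟨hG, hF.2.trans h2⟩)
    have h4 := Finset.eq_of_subset_of_card_le h2 h3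
    subst h4
    exact le_rfl
  have h2 := h.sph.covBy _ _ h1
  have h3 : n + 2 = F.card + 1 := h2
  omega

theorem mfd_card (σ : Finset V) (hσ : σ ∈ Γ) : σ.card ≤ n + 1 := by
  obtain ⟨F, -, h1, h2⟩ := mfd_max h σ hσ
  rw [← h2]
  exact Finset.card_le_card h1

theorem mfd_emb : FaceEmb (fun σ : {σ // σ ∈ Γ} => σ.1) Γ (n + 1) where
  le _ _ := Iff.rfl
  mem T := ⟨fun hT => ⟨⟨T, hT⟩, rfl⟩, fun ⟨x, hx⟩ => hx ▸ x.2⟩
  conv x hx T hT _ U hxU hUT := h.down T hT U hUT fun h0 => by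
    subst h0
    exact h.ne ((Finset.subset_empty.1 hxU) ▸ hx)
  card := mfd_card h

theorem mfd_pure (T : Finset V) (hT : T ∈ Γ) (hc : T.card < n + 1) :
    ∃ v ∉ T, insert v T ∈ Γ := by
  obtain ⟨F, hF, h1, h2⟩ := mfd_max h T hT
  obtain ⟨v, hv, hvT⟩ := Finset.exists_of_ssubset (Finset.ssubset_iff_subset_ne.2
    ⟨h1, fun h3 => by subst h3; omega⟩)
  exact ⟨v, hvT, h.down F hF _ (Finset.insert_subset hv h1) (Finset.insert_ne_empty v T)⟩

theorem mfd_sph {σ : Finset V} (hσ : σ ∈ Γ) (S : Finset (Finset V))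
    (hS : ∀ T, T ∈ S ↔ T ≠ ∅ ∧ subd Γ σ T) :
    (∀ A ∈ S, A.card ≤ n) ∧ IsSpherical (rkB Finset.card S) ∧
      IsSpherical (rkT Finset.card n S) := by
  have hσ0 : σ.Nonempty := by
    rw [Finset.nonempty_iff_ne_empty]
    rintro rfl
    exact h.ne hσ
  have hcard := mfd_card h
  have hpure := mfd_max h
  have hne : ∀ A ∈ S, A ≠ ∅ := fun A hA => ((hS A).1 hA).1
  have hlk : ∀ A, A ≠ ∅ → (A ∈ S ↔ A ∈ lkS Γ σ) := fun A hA => by
    rw [hS, mem_lkS]
    exact ⟨fun h => h.2, fun h => ⟨hA, h⟩⟩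
  have hdown : ∀ A ∈ S, ∀ B, B ⊆ A → B ≠ ∅ → B ∈ S := fun A hA B hB hB0 =>
    (hlk B hB0).2 (lkS_down h.down hσ0 ((hlk A (hne A hA)).1 hA) hB)
  have hemp : (∅ : Finset V) ∈ lkS Γ σ := by
    rw [mem_lkS, Finset.union_empty, Finset.subset_empty]
    exact ⟨hσ, hσ0.ne_empty⟩
  have hE : Ev Γ (n + 1) := (mfd_emb h).ev (mfd_pure h)
    fun a => h.sph.exact _ _ (WithTop.coe_lt_top a)
  have hA : ∀ B ∈ Γ, Ac Γ B (n + 1) := fun B hB =>
    (mfd_emb h).ac (mfd_pure h) ⟨B, hB⟩ (h.sph.exact _ _ (WithTop.coe_lt_top _))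
  -- the link
  have emb : FaceEmb (fun x : WithBot {w // w ∈ S} => stB x) (lkS Γ σ) n := by
    refine ⟨stB_le hne, fun T => ?_, fun x _ T hT _ U _ hU => lkS_down h.down hσ0 hT hU,
      fun T hT => lkS_card hcard hT⟩
    constructor
    · intro hT
      by_cases h0 : T = ∅
      · exact ⟨⊥, by rw [h0]; rfl⟩
      · exact ⟨((⟨T, (hlk T h0).2 hT⟩ : {w // w ∈ S}) : WithBot {w // w ∈ S}), rfl⟩
    · rintro ⟨x, rfl⟩
      induction x using WithBot.recBotCoe with
      | bot => exact hemp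
      | coe w => exact (hlk _ (hne _ w.2)).1 w.2
  have lpure : ∀ T ∈ lkS Γ σ, T.card < n → ∃ v ∉ T, insert v T ∈ lkS Γ σ := by
    intro T hT hc
    obtain ⟨F, hF, h1, h2⟩ := lkS_pure h.down hpure hcard hσ0 hT
    obtain ⟨v, hv, hvT⟩ := Finset.exists_of_ssubset (Finset.ssubset_iff_subset_ne.2
      ⟨h1, fun h3 => by subst h3; omega⟩)
    exact ⟨v, hvT, lkS_down h.down hσ0 hF (Finset.insert_subset hv h1)⟩
  have hrk : ∀ x, rkB Finset.card S x = (stB x).card := by
    intro x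
    induction x using WithBot.recBotCoe with
    | bot => rfl
    | coe u => rfl
  have hbot : IsSpherical (rkB Finset.card S) := isSpherical_faces hne hdown
  refine ⟨fun A hA => lkS_card hcard ((hlk A (hne A hA)).1 hA), hbot, ⟨?_, ?_⟩⟩
  · intro x y hxy
    induction y using WithTop.recTopCoe with
    | top =>
      induction x using WithTop.recTopCoe with
      | top => exact absurd hxy.lt (lt_irrefl _)
      | coe x =>
        show n + 1 = rkB Finset.card S x + 1
        rw [hrk]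
        have h1 := WithTop.coe_covBy_top.1 hxy
        have h2 := lkS_card hcard (emb.st_mem x)
        by_contra h3
        obtain ⟨v, hv, hvT⟩ := lpure _ (emb.st_mem x) (by omega)
        obtain ⟨w, hw⟩ := (emb.mem _).1 hvT
        have h4 : x ≤ w := by
          rw [emb.le, hw]
          exact Finset.subset_insert v _
        have h5 := h1 h4
        rw [emb.le, hw] at h5
        exact hv (h5 (Finset.mem_insert_self v _))
    | coe y =>
      induction x using WithTop.recTopCoe with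
      | top => exact absurd hxy.lt not_top_lt
      | coe x => exact hbot.covBy x y (WithTop.coe_covBy_coe.1 hxy)
  · intro a b hab
    induction a using WithTop.recTopCoe with
    | top => exact absurd hab not_top_lt
    | coe a =>
      induction b using WithTop.recTopCoe with
      | top =>
        exact emb.exact_top lpure (lkS_ev h.down hcard hE hσ0) a
          (lkS_ac h.down hcard hE hA _ (emb.st_mem a))
      | coe b => exact exact_coe a b (hbot.exact a b (WithTop.coe_lt_coe.1 hab))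

theorem mfd_lab {σ : Finset V} (hσ : σ ∈ Γ) (S : Finset (Finset V))
    (hS : ∀ T, T ∈ S ↔ T ≠ ∅ ∧ subd Γ σ T) : IsRanked Finset.card n S := by
  obtain ⟨h1, h2, h3⟩ := mfd_sph h hσ S hS
  exact ⟨h1, h2, fun _ => h3⟩

end

/-- **Singer's conjecture above the middle for the hyperbolizations of closed manifolds.** -/
theorem hyp_manifold (Γ : Finset (Finset V)) (n : ℕ) (h : IsClosedManifold Γ n) (i : ℕ)
    (hi : n < 2 * i) (x : {x // subd Γ x ∅}) :
    L2HomologyZero ((hyp (subd Γ) (isCubical_subd h.down)).cover x) i := by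
  have h1 : ∀ x : {x // subd Γ x ∅}, x.1 ∈ Γ := fun x => by
    have := x.2.1
    rwa [Finset.union_empty] at this
  have hr : ∀ x : {x // subd Γ x ∅},
      IsRanked Finset.card n ((hyp (subd Γ) (isCubical_subd h.down)).lab x) := fun x =>
    mfd_lab h (h1 x) _ fun T => mem_hyp
  refine hyp_general (subd Γ) (isCubical_subd h.down) n (fun x S hS => ?_) (fun _ => hr) i hi x
  by_cases h0 : S = ∅
  · subst h0
    exact Nat.zero_le n
  · have h2 : subd Γ x ∅ := (isCubical_subd h.down).face x S ∅ hS (Finset.empty_subset S)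
    exact (hr ⟨x, h2⟩).1 S (mem_hyp.2 ⟨h0, hS⟩)

end Pool.Agent.H19.Hyp
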