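import Pool.Agent.H19.Hyp.PosVan
import Pool.Agent.H4.HY.Transfer

/-!
# Project HB: ranked cube complexes
-/

set_option autoImplicit false

open Finset

namespace Pool.Agent.H19.Hyp

open Pool.Agent.H19.Cub

/-- **The theorem for ranked cube complexes.** The labels form a poset with the rank function `rk`, the
adjacent labels are the comparable ones, and the labels at every vertex `x` are contained in a set `S x`
which is spherical of rank `n` (`IsRanked`). -/
theorem ranked_general {L X : Type} [PartialOrder L] [Fintype L] [DecidableEq L] [Fintype X]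
    (Q : CubeComplex L X) (hG : ∀ u v, Q.graph.Adj u v ↔ u < v ∨ v < u) (rk : L → ℕ)
    (hrk : StrictMono rk) (n : ℕ) (S : X → Finset L) (hS : ∀ x, IsRanked rk n (S x))
    (hlab : ∀ x, Q.lab x ⊆ S x) (i : ℕ) (hi : n < 2 * i) (x : X) :
    L2HomologyZero (Q.cover x) i :=
  Pool.Agent.H4.HY.generalCol Q (colR rk) (colR_ne rk hrk Q.graph hG) i
    (fun y => posVan rk hrk Q.graph hG n (S y) (Q.lab y) (hS y) (hlab y) i hi) x

end Pool.Agent.H19.Hyp
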