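import Pool.Agent.H19.Hyp.Join
import Pool.Agent.H19.Hyp.Bool

/-!
# Project HB: spherical posets of faces with a largest element added
-/

set_option autoImplicit false
set_option linter.unusedSectionVars false
set_option linter.unusedVariables false

open Finset

namespace Pool.Agent.H19.Hyp

open Pool.Agent.H4.Singer2

variable {V : Type} [DecidableEq V] [Fintype V] {B : Type} [PartialOrder B] [Fintype B]

/-- the poset `B` is identified with the set `Λ` of faces -/
structure FaceEmb (st : B → Finset V) (Λ : Finset (Finset V)) (m : ℕ) : Prop where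
  le : ∀ x y, x ≤ y ↔ st x ⊆ st y
  mem : ∀ T, T ∈ Λ ↔ ∃ x, st x = T
  conv : ∀ x ∈ Λ, ∀ T ∈ Λ, x ⊆ T → ∀ U, x ⊆ U → U ⊆ T → U ∈ Λ
  card : ∀ T ∈ Λ, T.card ≤ m

section

variable {st : B → Finset V} {Λ : Finset (Finset V)} {m : ℕ}

theorem FaceEmb.inj (h : FaceEmb st Λ m) {x y : B} (hxy : st x = st y) : x = y :=
  le_antisymm ((h.le x y).2 hxy.subset) ((h.le y x).2 hxy.symm.subset)

theorem FaceEmb.lt (h : FaceEmb st Λ m) (x y : B) : x < y ↔ st x ⊂ st y := by
  rw [lt_iff_le_not_ge, h.le, h.le]
  exact Iff.rfl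

theorem FaceEmb.st_mem (h : FaceEmb st Λ m) (x : B) : st x ∈ Λ := (h.mem _).2 ⟨x, rfl⟩

open Classical in
/-- a function on `Λ` from a function on `B` -/
noncomputable def fΛ (st : B → Finset V) (z : B → ZMod 2) (T : Finset V) : ZMod 2 :=
  if h : ∃ x, st x = T then z h.choose else 0

theorem FaceEmb.fΛ_st (h : FaceEmb st Λ m) (z : B → ZMod 2) (x : B) : fΛ st z (st x) = z x := by
  unfold fΛ
  have h1 : ∃ y, st y = st x := ⟨x, rfl⟩
  rw [dif_pos h1]
  exact congrArg z (h.inj h1.choose_spec)

theorem FaceEmb.cov (h : FaceEmb st Λ m) (x y : B) :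
    x ⋖ y ↔ ∃ v ∉ st x, st y = insert v (st x) := by
  constructor
  · intro hxy
    have h1 := (h.lt x y).1 hxy.lt
    obtain ⟨v, hv, hvx⟩ := Finset.exists_of_ssubset h1
    have h2 : insert v (st x) ⊆ st y := Finset.insert_subset hv h1.subset
    obtain ⟨c, hc⟩ := (h.mem _).1 (h.conv _ (h.st_mem x) _ (h.st_mem y) h1.subset _
      (Finset.subset_insert v _) h2)
    refine ⟨v, hvx, ?_⟩
    have h3 : x < c := by
      rw [h.lt, hc]
      exact Finset.ssubset_insert hvx
    have h4 : c ≤ y := by
      rw [h.le, hc]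
      exact h2
    rcases h4.lt_or_eq with h5 | h5
    · exact absurd h5 (hxy.2 h3)
    · rw [← h5, hc]
  · rintro ⟨v, hv, hy⟩
    refine ⟨?_, fun c h1 h2 => ?_⟩
    · rw [h.lt, hy]
      exact Finset.ssubset_insert hv
    · rw [h.lt] at h1 h2
      have h3 := Finset.card_lt_card h1
      have h4 := Finset.card_lt_card h2
      rw [hy, Finset.card_insert_of_notMem hv] at h4
      omega

/-- intervals below an element of `B` -/
theorem exact_coe (a b : B) (h : ExactInterval a b) :
    ExactInterval (a : WithTop B) (b : WithTop B) := by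
  classical
  have key : ∀ (z : WithTop B → ZMod 2) (x : B),
      bdI (b : WithTop B) z (x : WithTop B) = bdI b (fun y => z (y : WithTop B)) x := by
    intro z x
    unfold bdI
    symm
    refine Finset.sum_bij (fun y _ => (y : WithTop B)) ?_ ?_ ?_ ?_
    · intro y hy
      simp only [Finset.mem_filter, Finset.mem_univ, true_and] at hy ⊢
      exact ⟨WithTop.coe_covBy_coe.2 hy.1, WithTop.coe_le_coe.2 hy.2⟩
    · intro y _ w _ hyw
      exact WithTop.coe_injective hyw
    · intro y hy
      simp only [Finset.mem_filter, Finset.mem_univ, true_and] at hy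
      induction y using WithTop.recTopCoe with
      | top => exact absurd hy.2 (WithTop.not_top_le_coe b)
      | coe w =>
        refine ⟨w, ?_, rfl⟩
        simp only [Finset.mem_filter, Finset.mem_univ, true_and]
        exact ⟨WithTop.coe_covBy_coe.1 hy.1, WithTop.coe_le_coe.1 hy.2⟩
    · intro y _
      rfl
  intro z
  have h1 := h fun y => z (y : WithTop B)
  constructor
  · intro hz
    obtain ⟨y, hy⟩ := h1.1 fun x hax hxb => by
      rw [← key]
      exact hz x (WithTop.coe_le_coe.2 hax) (WithTop.coe_le_coe.2 hxb)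
    refine ⟨fun w => w.recTopCoe 0 y, fun x hax hxb => ?_⟩
    induction x using WithTop.recTopCoe with
    | top => exact absurd hxb (WithTop.not_top_le_coe b)
    | coe w =>
      rw [key]
      exact hy w (WithTop.coe_le_coe.1 hax) (WithTop.coe_le_coe.1 hxb)
  · rintro ⟨y, hy⟩ x hax hxb
    induction x using WithTop.recTopCoe with
    | top => exact absurd hxb (WithTop.not_top_le_coe b)
    | coe w =>
      rw [key]
      refine h1.2 ⟨fun w => y (w : WithTop B), fun u hau hub => ?_⟩ w
        (WithTop.coe_le_coe.1 hax) (WithTop.coe_le_coe.1 hxb)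
      rw [← key]
      exact hy u (WithTop.coe_le_coe.2 hau) (WithTop.coe_le_coe.2 hub)

theorem bdI_top (z : WithTop B → ZMod 2) : bdI (⊤ : WithTop B) z ⊤ = 0 := by
  classical
  unfold bdI
  refine Finset.sum_eq_zero fun y hy => ?_
  simp only [Finset.mem_filter, Finset.mem_univ, true_and] at hy
  exact absurd hy.1.lt not_top_lt

/-- the boundary operator below the largest element -/
theorem FaceEmb.bdI_eq (h : FaceEmb st Λ m) (hpure : ∀ T ∈ Λ, T.card < m → ∃ v ∉ T, insert v T ∈ Λ)
    (z : WithTop B → ZMod 2) (x : B) :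
    bdI (⊤ : WithTop B) z (x : WithTop B) =
      bT Λ m (fΛ st fun y => z (y : WithTop B)) (z ⊤) (st x) := by
  classical
  by_cases hx : (st x).card = m
  · rw [bT_of_card hx]
    unfold bdI
    rw [Finset.sum_eq_single ⊤]
    · intro y hy hne
      exfalso
      simp only [Finset.mem_filter, Finset.mem_univ, true_and] at hy
      induction y using WithTop.recTopCoe with
      | top => exact hne rfl
      | coe w =>
        obtain ⟨v, hv, hw⟩ := (h.cov x w).1 (WithTop.coe_covBy_coe.1 hy.1)
        have h1 := h.card _ (h.st_mem w)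
        rw [hw, Finset.card_insert_of_notMem hv] at h1
        omega
    · intro hn
      exfalso
      apply hn
      simp only [Finset.mem_filter, Finset.mem_univ, true_and]
      refine ⟨WithTop.coe_covBy_top.2 fun w hxw => ?_, le_rfl⟩
      rw [h.le] at hxw ⊢
      have h1 := h.card _ (h.st_mem w)
      exact (Finset.eq_of_subset_of_card_le hxw (by omega)).symm.subset
  · rw [bT_of_ne hx, ← Finset.sum_filter]
    unfold bdI
    symm
    have hbij : ∀ u ∈ (st x)ᶜ.filter (fun u => insert u (st x) ∈ Λ), ∃ w, st w = insert u (st x) := by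
      intro u hu
      rw [Finset.mem_filter] at hu
      exact (h.mem _).1 hu.2
    refine Finset.sum_bij (fun u hu => (((hbij u hu).choose : B) : WithTop B)) ?_ ?_ ?_ ?_
    · intro u hu
      have h1 := (hbij u hu).choose_spec
      simp only [Finset.mem_filter, Finset.mem_univ, true_and]
      refine ⟨WithTop.coe_covBy_coe.2 ((h.cov _ _).2 ⟨u, ?_, h1⟩), le_top⟩
      rw [Finset.mem_filter, Finset.mem_compl] at hu
      exact hu.1
    · intro u hu w hw huw
      have h1 := (hbij u hu).choose_spec
      have h2 := (hbij w hw).choose_spec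
      have h3 := WithTop.coe_injective huw
      rw [h3, h2] at h1
      have h4 : u ∈ insert w (st x) := h1 ▸ Finset.mem_insert_self u _
      rw [Finset.mem_filter, Finset.mem_compl] at hu
      rcases Finset.mem_insert.1 h4 with h5 | h5
      · exact h5
      · exact absurd h5 hu.1
    · intro y hy
      simp only [Finset.mem_filter, Finset.mem_univ, true_and] at hy
      induction y using WithTop.recTopCoe with
      | top =>
        exfalso
        have h1 := WithTop.coe_covBy_top.1 hy.1
        have h2 := h.card _ (h.st_mem x)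
        obtain ⟨v, hv, hvΛ⟩ := hpure _ (h.st_mem x) (by omega)
        obtain ⟨w, hw⟩ := (h.mem _).1 hvΛ
        have h3 : x ≤ w := by
          rw [h.le, hw]
          exact Finset.subset_insert v _
        have h4 := h1 h3
        rw [h.le, hw] at h4
        exact hv (h4 (Finset.mem_insert_self v _))
      | coe w =>
        obtain ⟨v, hv, hw⟩ := (h.cov x w).1 (WithTop.coe_covBy_coe.1 hy.1)
        have h1 : v ∈ (st x)ᶜ.filter (fun u => insert u (st x) ∈ Λ) := by
          rw [Finset.mem_filter, Finset.mem_compl]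
          exact ⟨hv, hw ▸ h.st_mem w⟩
        refine ⟨v, h1, ?_⟩
        have h2 := (hbij v h1).choose_spec
        exact congrArg _ (h.inj (h2.trans hw.symm))
    · intro u hu
      have h1 := (hbij u hu).choose_spec
      exact (congrArg (fΛ st fun y => z (y : WithTop B)) h1.symm).trans (h.fΛ_st _ _)

/-- exactness of the upper intervals gives `Ac` -/
theorem FaceEmb.ac (h : FaceEmb st Λ m) (hpure : ∀ T ∈ Λ, T.card < m → ∃ v ∉ T, insert v T ∈ Λ)
    (a : B) (he : ExactInterval (a : WithTop B) ⊤) : Ac Λ (st a) m := by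
  intro z c hz
  have hf : ∀ (f : Finset V → ZMod 2) (c : ZMod 2) (x : B),
      bT Λ m (fΛ st fun y => f (st y)) c (st x) = bT Λ m f c (st x) := by
    intro f c x
    unfold bT
    split_ifs
    · rfl
    · refine Finset.sum_congr rfl fun u _ => ?_
      split_ifs with h1
      · obtain ⟨w, hw⟩ := (h.mem _).1 h1
        rw [← hw, h.fΛ_st]
      · rfl
  obtain ⟨y, hy⟩ := (he fun w => w.recTopCoe c fun x => z (st x)).1 (by
    intro x hax _
    induction x using WithTop.recTopCoe with
    | top => exact bdI_top _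
    | coe w =>
      rw [h.bdI_eq hpure]
      show bT Λ m (fΛ st fun y => z (st y)) c (st w) = 0
      rw [hf]
      exact hz _ (h.st_mem w) ((h.le _ _).1 (WithTop.coe_le_coe.1 hax)))
  refine ⟨?_, fΛ st fun w => y (w : WithTop B), y ⊤, fun x hx hax => ?_⟩
  · have h1 := hy ⊤ le_top le_rfl
    rw [bdI_top] at h1
    exact h1.symm
  · obtain ⟨w, rfl⟩ := (h.mem _).1 hx
    have h1 := hy w (WithTop.coe_le_coe.2 ((h.le _ _).2 hax)) le_top
    rw [h.bdI_eq hpure] at h1
    exact h1

/-- exactness of the upper intervals gives `Ev` -/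
theorem FaceEmb.ev (h : FaceEmb st Λ m) (hpure : ∀ T ∈ Λ, T.card < m → ∃ v ∉ T, insert v T ∈ Λ)
    (he : ∀ a : B, ExactInterval (a : WithTop B) ⊤) : Ev Λ m := by
  intro x hx hxc
  obtain ⟨a, rfl⟩ := (h.mem _).1 hx
  obtain ⟨y, hy⟩ : ∃ y : WithTop B → ZMod 2, y = fun w => w.recTopCoe 1 fun _ => 0 := ⟨_, rfl⟩
  have h1 := (he a (bdI ⊤ y)).2 ⟨y, fun _ _ _ => rfl⟩ a le_rfl le_top
  rw [h.bdI_eq hpure, bT_of_ne (by omega)] at h1
  refine Eq.trans (Finset.sum_congr rfl fun u hu => ?_) h1
  rw [Finset.mem_compl] at hu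
  split_ifs with h2
  · obtain ⟨w, hw⟩ := (h.mem _).1 h2
    rw [← hw, h.fΛ_st, h.bdI_eq hpure, bT_of_card (by
      rw [hw, Finset.card_insert_of_notMem hu]
      exact hxc), hy]
    rfl
  · rfl

/-- `Ev` and `Ac` give exactness of the upper intervals -/
theorem FaceEmb.exact_top (h : FaceEmb st Λ m)
    (hpure : ∀ T ∈ Λ, T.card < m → ∃ v ∉ T, insert v T ∈ Λ) (hE : Ev Λ m) (a : B)
    (ha : Ac Λ (st a) m) : ExactInterval (a : WithTop B) ⊤ := by
  intro z
  constructor
  · intro hz
    obtain ⟨hc, y, d, hy⟩ := ha (fΛ st fun w => z (w : WithTop B)) (z ⊤) fun x hx hax => by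
      obtain ⟨w, rfl⟩ := (h.mem _).1 hx
      rw [← h.bdI_eq hpure]
      exact hz w (WithTop.coe_le_coe.2 ((h.le _ _).2 hax)) le_top
    refine ⟨fun w => w.recTopCoe d fun x => y (st x), fun x hax _ => ?_⟩
    induction x using WithTop.recTopCoe with
    | top => rw [bdI_top, hc]
    | coe w =>
      have h1 := hy (st w) (h.st_mem w) ((h.le _ _).1 (WithTop.coe_le_coe.1 hax))
      rw [h.fΛ_st] at h1
      rw [h.bdI_eq hpure, ← h1]
      show bT Λ m (fΛ st fun x => y (st x)) d (st w) = _
      unfold bT
      split_ifs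
      · rfl
      · refine Finset.sum_congr rfl fun u _ => ?_
        split_ifs with h2
        · obtain ⟨b, hb⟩ := (h.mem _).1 h2
          rw [← hb, h.fΛ_st]
        · rfl
  · rintro ⟨y, hy⟩ x hax _
    induction x using WithTop.recTopCoe with
    | top => exact bdI_top _
    | coe w =>
      have h0 : z ⊤ = 0 := by
        rw [← hy ⊤ le_top le_rfl, bdI_top]
      rw [h.bdI_eq hpure, h0]
      have h1 := bT_bT hE h.conv (fΛ st fun w => y (w : WithTop B)) (y ⊤) (st w) (h.st_mem w)
      have haw := (h.le _ _).1 (WithTop.coe_le_coe.1 hax)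
      refine Eq.trans ?_ h1
      unfold bT
      split_ifs with h2
      · rfl
      · refine Finset.sum_congr rfl fun u _ => ?_
        by_cases h3 : insert u (st w) ∈ Λ
        · rw [if_pos h3, if_pos h3]
          obtain ⟨b, hb⟩ := (h.mem _).1 h3
          rw [← hb, h.fΛ_st]
          have h4 : a ≤ b := by
            rw [h.le, hb]
            exact haw.trans (Finset.subset_insert u _)
          rw [← hy b (WithTop.coe_le_coe.2 h4) le_top, h.bdI_eq hpure]
          rfl
        · rw [if_neg h3, if_neg h3]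

end

end Pool.Agent.H19.Hyp
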