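import Pool.Agent.H19.Hyp.Defs
import Pool.Agent.H4.Singer.Basic

/-!
# Project HB: `Van` for an induced subgraph
-/

set_option autoImplicit false

open Finset

namespace Pool.Agent.H19.Hyp

open Pool.Agent.H4.Singer

section

variable {V V' C K : Type} [DecidableEq V] [Fintype V] [DecidableEq V'] [Fintype V']
    [DecidableEq C] [Field K] (G : ColGraph V C) (G' : ColGraph V' C) (e : V' ↪ V)

private theorem vs_bd (hc : ∀ v, G'.col v = G.col (e v)) (t : V → K)
    (z : Finset V → (C → Bool) → K) (U : Finset V) (hU : ∀ v, v ∈ U ↔ ∃ w, e w = v)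
    (hz : ∀ σ a, z σ a ≠ 0 → σ ⊆ U) (τ : Finset V') (a : C → Bool) :
    bd G t z (τ.map e) a = bd G' (fun v => t (e v)) (fun σ a => z (σ.map e) a) τ a := by
  unfold bd
  symm
  have h1 : ∑ v ∈ (τᶜ).map e, wt t v (a (G.col v)) • z (insert v (τ.map e)) a =
      ∑ v ∈ (τ.map e)ᶜ, wt t v (a (G.col v)) • z (insert v (τ.map e)) a := by
    refine Finset.sum_subset ?_ ?_
    · intro u hu
      obtain ⟨v, hv, rfl⟩ := Finset.mem_map.1 hu
      rw [Finset.mem_compl] at hv ⊢
      intro h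
      obtain ⟨w, hw, hwv⟩ := Finset.mem_map.1 h
      exact hv (e.injective hwv ▸ hw)
    · intro u hu hu'
      by_contra hne
      have h2 : z (insert u (τ.map e)) a ≠ 0 := fun h0 => hne (by rw [h0, smul_zero])
      have h3 := hz _ _ h2 (Finset.mem_insert_self u _)
      obtain ⟨v, rfl⟩ := (hU u).1 h3
      apply hu'
      refine Finset.mem_map_of_mem e ?_
      rw [Finset.mem_compl] at hu ⊢
      exact fun h => hu (Finset.mem_map_of_mem e h)
  rw [← h1, Finset.sum_map]
  refine Finset.sum_congr rfl fun v _ => ?_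
  rw [hc]
  show _ • z ((insert v τ).map e) a = _
  rw [Finset.map_insert]
  rfl

theorem van_sub (hadj : ∀ u v, G'.adj u v ↔ G.adj (e u) (e v))
    (hc : ∀ v, G'.col v = G.col (e v)) (t : V → K) (U : Finset V)
    (hU : ∀ v, v ∈ U ↔ ∃ w, e w = v) (i : ℕ) (h : Van G' (fun v => t (e v)) univ i) :
    Van G t U i := by
  classical
  intro z hz hbz
  have hzs : ∀ σ a, z σ a ≠ 0 → σ ⊆ U := fun σ a h => (hz.supp σ a h).1
  have hcl : ∀ σ : Finset V', G.Cl (σ.map e) ↔ G'.Cl σ := by
    intro σ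
    constructor
    · intro h1 u hu v hv huv
      rw [hadj]
      exact h1 _ (Finset.mem_map_of_mem e hu) _ (Finset.mem_map_of_mem e hv)
        fun h2 => huv (e.injective h2)
    · intro h1 u hu v hv huv
      obtain ⟨u', hu', rfl⟩ := Finset.mem_map.1 hu
      obtain ⟨v', hv', rfl⟩ := Finset.mem_map.1 hv
      rw [← hadj]
      exact h1 _ hu' _ hv' fun h2 => huv (congrArg e h2)
  obtain ⟨y', hy', hby'⟩ := h (fun σ a => z (σ.map e) a) ⟨fun σ a hne => by
      obtain ⟨-, h2, h3⟩ := hz.supp _ _ hne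
      exact ⟨Finset.subset_univ _, (hcl σ).1 h2, by rwa [Finset.card_map] at h3⟩,
    fun σ a v b hv => by
      rw [hc]
      exact hz.indep _ a (e v) b (Finset.mem_map_of_mem e hv)⟩ (by
      funext τ a
      rw [← vs_bd G G' e hc t z U hU hzs τ a, hbz]
      rfl)
  have hpre : ∀ σ : Finset V, σ ⊆ U → (σ.preimage e e.injective.injOn).map e = σ := by
    intro σ hσ
    ext v
    rw [Finset.mem_map]
    constructor
    · rintro ⟨w, hw, rfl⟩
      exact Finset.mem_preimage.1 hw
    · intro hv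
      obtain ⟨w, rfl⟩ := (hU v).1 (hσ hv)
      exact ⟨w, Finset.mem_preimage.2 hv, rfl⟩
  have hpre' : ∀ σ : Finset V', (σ.map e).preimage e e.injective.injOn = σ := by
    intro σ
    ext v
    rw [Finset.mem_preimage, Finset.mem_map' e]
  obtain ⟨y, hyd⟩ : ∃ y : Finset V → (C → Bool) → K, y = fun σ a =>
      if σ ⊆ U then y' (σ.preimage e e.injective.injOn) a else 0 := ⟨_, rfl⟩
  have hy1 : ∀ (σ : Finset V') a, y (σ.map e) a = y' σ a := by
    intro σ a
    have h1 : σ.map e ⊆ U := by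
      intro v hv
      obtain ⟨w, -, rfl⟩ := Finset.mem_map.1 hv
      exact (hU _).2 ⟨w, rfl⟩
    rw [hyd]
    simp only [h1, if_true, hpre']
  have hy2 : ∀ σ a, ¬ σ ⊆ U → y σ a = 0 := by
    intro σ a h1
    rw [hyd]
    simp only [h1, if_false]
  have hys : ∀ σ a, y σ a ≠ 0 → σ ⊆ U := by
    intro σ a h1
    by_contra h2
    exact h1 (hy2 σ a h2)
  refine ⟨y, ⟨?_, ?_⟩, ?_⟩
  · intro σ a hne
    have h1 := hys σ a hne
    rw [← hpre σ h1, hy1] at hne
    obtain ⟨-, h2, h3⟩ := hy'.supp _ _ hne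
    refine ⟨h1, ?_, ?_⟩
    · rw [← hpre σ h1]
      exact (hcl _).2 h2
    · rw [← hpre σ h1, Finset.card_map]
      exact h3
  · intro σ a v b hv
    by_cases h1 : σ ⊆ U
    · obtain ⟨w, rfl⟩ := (hU v).1 (h1 hv)
      rw [← hpre σ h1, hy1, hy1, ← hc]
      exact hy'.indep _ a w b (Finset.mem_preimage.2 hv)
    · rw [hy2 σ _ h1, hy2 σ _ h1]
  · funext τ a
    by_cases h1 : τ ⊆ U
    · rw [← hpre τ h1, vs_bd G G' e hc t y U hU hys]
      have h2 : (fun (σ : Finset V') (a : C → Bool) => y (σ.map e) a) = y' := by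
        funext σ a
        exact hy1 σ a
      rw [h2, hby']
    · have h2 : z τ a = 0 := by
        by_contra h3
        exact h1 (hzs τ a h3)
      rw [h2]
      unfold bd
      refine Finset.sum_eq_zero fun v _ => ?_
      rw [hy2, smul_zero]
      exact fun h3 => h1 ((Finset.subset_insert _ _).trans h3)

end

end Pool.Agent.H19.Hyp
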